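import Mathlib
import Pool.Agent.H331R2.ChromLC

set_option autoImplicit false

open Finset

namespace Pool.Agent.R54.CR

noncomputable section

open Classical
open Pool.Agent.H331R2.ChromLC

variable {V : Type*} [Fintype V] (G : SimpleGraph V)

/-- number of proper `k`-colourings of `G[A]`, as a real number -/
def f (A : Finset V) (k : ℕ) : ℝ := ((C G A k).card : ℝ)

lemma f_nonneg (A : Finset V) (k : ℕ) : 0 ≤ f G A k := by
  unfold f; positivity

lemma f_empty (k : ℕ) : f G ∅ k = 1 := by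
  unfold f; rw [card_C_empty]; simp

lemma f_zero {A : Finset V} (hA : A.Nonempty) : f G A 0 = 0 := by
  unfold f; rw [card_C_zero G A hA]; simp

lemma f_succ (A : Finset V) (k : ℕ) : f G A (k + 1) = ∑ S ∈ J G A, f G (A \ S) k := by
  unfold f; rw [card_C_succ]; push_cast; rfl

/-- the independent subsets of `A` through `x` -/
def Jx (A : Finset V) (x : V) : Finset (Finset V) := (J G A).filter (fun S => x ∈ S)

lemma mem_Jx {A S : Finset V} {x : V} : S ∈ Jx G A x ↔ (S ⊆ A ∧ ∀ a ∈ S, ∀ b ∈ S, ¬ G.Adj a b) ∧ x ∈ S := by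
  unfold Jx; rw [mem_filter, mem_J]

lemma f_succ' {A : Finset V} {x : V} (hx : x ∈ A) (k : ℕ) :
    f G A (k + 1) = ((k : ℝ) + 1) * ∑ S ∈ Jx G A x, f G (A \ S) k := by
  unfold f Jx; rw [card_C_succ' G A x hx]; push_cast; rfl

/-- neighbours of `w` in `A` -/
def nb (A : Finset V) (w : V) : Finset V := A.filter (fun u => G.Adj w u)

omit [Fintype V] in
lemma mem_nb {A : Finset V} {w u : V} : u ∈ nb G A w ↔ u ∈ A ∧ G.Adj w u := by
  unfold nb; rw [mem_filter]

/-- `T` has no neighbour of `w` -/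
def av (w : V) (T : Finset V) : Prop := ∀ t ∈ T, ¬ G.Adj w t

/-- clique condition -/
def clq (K : Finset V) : Prop := ∀ a ∈ K, ∀ b ∈ K, a ≠ b → G.Adj a b

lemma J_mono {A B : Finset V} (h : A ⊆ B) : J G A ⊆ J G B := by
  intro S hS
  rw [mem_J] at hS ⊢
  exact ⟨hS.1.trans h, hS.2⟩

lemma Jx_mono {A B : Finset V} (h : A ⊆ B) (x : V) : Jx G A x ⊆ Jx G B x := by
  intro S hS
  rw [mem_Jx] at hS ⊢
  exact ⟨⟨hS.1.1.trans h, hS.1.2⟩, hS.2⟩

lemma sum_Jx_le {R Y : Finset V} (hRY : R ⊆ Y) {u : V} (hu : u ∈ R) (k : ℕ) :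
    ((k : ℝ) + 1) * ∑ T ∈ Jx G R u, f G (Y \ T) k ≤ f G Y (k + 1) := by
  rw [f_succ' G (hRY hu)]
  apply mul_le_mul_of_nonneg_left _ (by positivity)
  apply Finset.sum_le_sum_of_subset_of_nonneg (Jx_mono G hRY u)
  intro T _ _
  exact f_nonneg G _ _

lemma double_count (R N : Finset V) (g : Finset V → ℝ) :
    ∑ T ∈ J G R, ((N ∩ T).card : ℝ) * g T = ∑ u ∈ N, ∑ T ∈ Jx G R u, g T := by
  unfold Jx
  simp only [Finset.sum_filter]
  rw [Finset.sum_comm]
  apply Finset.sum_congr rfl
  intro T _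
  rw [← Finset.sum_filter, Finset.sum_const, nsmul_eq_mul]
  congr 3

/-- union bound for the independent sets meeting the neighbourhood of `w` -/
lemma sum_not_av_le {R Y : Finset V} (hRY : R ⊆ Y) (w : V) (k : ℕ) :
    ((k : ℝ) + 1) * ∑ T ∈ (J G R).filter (fun T => ¬ av G w T), f G (Y \ T) k
      ≤ (nb G R w).card * f G Y (k + 1) := by
  have h1 : ∑ T ∈ (J G R).filter (fun T => ¬ av G w T), f G (Y \ T) k
      ≤ ∑ u ∈ nb G R w, ∑ T ∈ Jx G R u, f G (Y \ T) k := by
    rw [← double_count, Finset.sum_filter]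
    apply Finset.sum_le_sum
    intro T hT
    by_cases h : av G w T
    · rw [if_neg (not_not.2 h)]
      exact mul_nonneg (Nat.cast_nonneg _) (f_nonneg G _ _)
    · rw [if_pos h]
      unfold av at h
      push Not at h
      obtain ⟨t, ht, hwt⟩ := h
      rw [mem_J] at hT
      have h2 : 1 ≤ (nb G R w ∩ T).card := by
        apply Finset.card_pos.2
        exact ⟨t, by rw [mem_inter, mem_nb]; exact ⟨⟨hT.1 ht, hwt⟩, ht⟩⟩
      have h3 : (1 : ℝ) ≤ ((nb G R w ∩ T).card : ℝ) := by exact_mod_cast h2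
      have h4 := f_nonneg G (Y \ T) k
      nlinarith
  calc ((k : ℝ) + 1) * ∑ T ∈ (J G R).filter (fun T => ¬ av G w T), f G (Y \ T) k
      ≤ ((k : ℝ) + 1) * ∑ u ∈ nb G R w, ∑ T ∈ Jx G R u, f G (Y \ T) k :=
        mul_le_mul_of_nonneg_left h1 (by positivity)
    _ = ∑ u ∈ nb G R w, ((k : ℝ) + 1) * ∑ T ∈ Jx G R u, f G (Y \ T) k := by rw [mul_sum]
    _ ≤ ∑ u ∈ nb G R w, f G Y (k + 1) := by
        apply Finset.sum_le_sum
        intro u hu
        rw [mem_nb] at hu
        exact sum_Jx_le G hRY hu.1 k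
    _ = (nb G R w).card * f G Y (k + 1) := by rw [sum_const, nsmul_eq_mul]

/-- independent sets through `w` of `insert w Y` -/
lemma sum_Jx_insert {Y : Finset V} {w : V} (hw : w ∉ Y) (g : Finset V → ℝ) :
    ∑ S ∈ Jx G (insert w Y) w, g S
      = ∑ T ∈ (J G Y).filter (fun T => av G w T), g (insert w T) := by
  refine Finset.sum_nbij' (fun S => S.erase w) (fun S => insert w S) ?_ ?_ ?_ ?_ ?_
  · intro S hS
    simp only [Finset.mem_filter, mem_J, mem_Jx, av] at hS ⊢
    obtain ⟨⟨h1, h2⟩, h3⟩ := hS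
    refine ⟨⟨?_, ?_⟩, ?_⟩
    · intro a ha
      rw [Finset.mem_erase] at ha
      have := h1 ha.2
      rw [Finset.mem_insert] at this
      exact this.resolve_left ha.1
    · intro a ha b hb
      exact h2 a (Finset.mem_of_mem_erase ha) b (Finset.mem_of_mem_erase hb)
    · intro s hs
      exact h2 w h3 s (Finset.mem_of_mem_erase hs)
  · intro S hS
    simp only [Finset.mem_filter, mem_J, mem_Jx, av] at hS ⊢
    obtain ⟨⟨h1, h2⟩, h3⟩ := hS
    refine ⟨⟨Finset.insert_subset_insert w h1, ?_⟩, Finset.mem_insert_self w S⟩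
    intro a ha b hb hab
    rw [Finset.mem_insert] at ha hb
    rcases ha with rfl | ha
    · rcases hb with rfl | hb
      · exact G.loopless.irrefl _ hab
      · exact h3 b hb hab
    · rcases hb with rfl | hb
      · exact h3 a ha hab.symm
      · exact h2 a ha b hb hab
  · intro S hS
    rw [mem_Jx] at hS
    exact Finset.insert_erase hS.2
  · intro S hS
    simp only [Finset.mem_filter, mem_J] at hS
    exact Finset.erase_insert (fun h => hw (hS.1.1 h))
  · intro S hS
    rw [mem_Jx] at hS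
    show g S = g (insert w (S.erase w))
    rw [Finset.insert_erase hS.2]

lemma sum_Jx_erase {Y : Finset V} {w : V} (hw : w ∈ Y) (g : Finset V → ℝ) :
    ∑ S ∈ Jx G Y w, g S
      = ∑ T ∈ (J G (Y.erase w)).filter (fun T => av G w T), g (insert w T) := by
  have h := sum_Jx_insert G (Finset.notMem_erase w Y) g
  rw [Finset.insert_erase hw] at h
  exact h

/-- splitting the independent sets of `K ∪ B` for a clique `K` -/
lemma sum_split {K B : Finset V} (hd : Disjoint K B) (hK : clq G K) (g : Finset V → ℝ) :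
    ∑ S ∈ J G (K ∪ B), g S = ∑ S ∈ J G B, g S + ∑ x ∈ K, ∑ S ∈ Jx G (K ∪ B) x, g S := by
  have h1 : J G (K ∪ B) = J G B ∪ K.biUnion (fun x => Jx G (K ∪ B) x) := by
    ext S
    rw [mem_union, mem_biUnion]
    constructor
    · intro hS
      by_cases h : ∃ x ∈ K, x ∈ S
      · obtain ⟨x, hx, hxS⟩ := h
        right
        refine ⟨x, hx, ?_⟩
        rw [mem_Jx]
        rw [mem_J] at hS
        exact ⟨hS, hxS⟩
      · left
        push Not at h
        rw [mem_J] at hS ⊢
        refine ⟨?_, hS.2⟩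
        intro a ha
        have := hS.1 ha
        rw [mem_union] at this
        exact this.resolve_left (fun h' => h a h' ha)
    · rintro (hS | ⟨x, hx, hS⟩)
      · exact J_mono G subset_union_right hS
      · rw [mem_Jx] at hS
        rw [mem_J]; exact hS.1
  rw [h1, Finset.sum_union, Finset.sum_biUnion]
  · intro x hx y hy hxy
    rw [Function.onFun, Finset.disjoint_left]
    intro S hS hS'
    rw [mem_Jx] at hS hS'
    exact hS.1.2 x hS.2 y hS'.2 (hK x hx y hy hxy)
  · rw [Finset.disjoint_left]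
    intro S hS hS'
    rw [mem_biUnion] at hS'
    obtain ⟨x, hx, hS'⟩ := hS'
    rw [mem_J] at hS
    rw [mem_Jx] at hS'
    exact (Finset.disjoint_left.1 hd hx) (hS.1 hS'.2)

/-- (I0) -/
lemma I0 {K B : Finset V} (hd : Disjoint K B) (hK : clq G K) (k : ℕ) :
    ((k : ℝ) + 1) * ∑ S ∈ J G B, f G ((K ∪ B) \ S) k
      = ((k : ℝ) + 1 - K.card) * f G (K ∪ B) (k + 1) := by
  have h1 := f_succ G (K ∪ B) k
  rw [sum_split G hd hK] at h1
  have h2 : ((k : ℝ) + 1) * ∑ x ∈ K, ∑ S ∈ Jx G (K ∪ B) x, f G ((K ∪ B) \ S) k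
      = K.card * f G (K ∪ B) (k + 1) := by
    rw [mul_sum, ← nsmul_eq_mul, ← sum_const]
    apply Finset.sum_congr rfl
    intro x hx
    rw [f_succ' G (mem_union_left B hx)]
  have h3 : ((k : ℝ) + 1) * f G (K ∪ B) (k + 1)
      = ((k : ℝ) + 1) * ∑ S ∈ J G B, f G ((K ∪ B) \ S) k
        + ((k : ℝ) + 1) * ∑ x ∈ K, ∑ S ∈ Jx G (K ∪ B) x, f G ((K ∪ B) \ S) k := by
    rw [← mul_add, ← h1]
  linarith

omit [Fintype V] in
lemma sdiff_insert_eq {Y T : Finset V} {w : V} : Y \ insert w T = (Y.erase w) \ T := by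
  ext a
  simp only [mem_sdiff, mem_insert, mem_erase]
  tauto

/-- Lemma F -/
lemma lemF {K B : Finset V} (hd : Disjoint K B) (hK : clq G K) {w : V} (hw : w ∈ B) (k : ℕ) :
    ((k : ℝ) + 1 - K.card - (nb G B w).card) * f G ((K ∪ B).erase w) (k + 1)
      ≤ ((k : ℝ) + 1) * ∑ S ∈ Jx G B w, f G ((K ∪ B) \ S) k := by
  have hwK : w ∉ K := fun h => Finset.disjoint_left.1 hd h hw
  have hE : (K ∪ B).erase w = K ∪ B.erase w := by
    rw [Finset.erase_union_distrib, Finset.erase_eq_of_notMem hwK]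
  have hd' : Disjoint K (B.erase w) := Finset.disjoint_of_subset_right (Finset.erase_subset _ _) hd
  rw [sum_Jx_erase G hw]
  have h1 : ∑ T ∈ (J G (B.erase w)).filter (fun T => av G w T), f G ((K ∪ B) \ insert w T) k
      = ∑ T ∈ (J G (B.erase w)).filter (fun T => av G w T), f G ((K ∪ B.erase w) \ T) k := by
    apply Finset.sum_congr rfl
    intro T _
    rw [sdiff_insert_eq, hE]
  rw [h1, hE]
  have h2 := I0 G hd' hK k
  have h3 := sum_not_av_le G (R := B.erase w) (Y := K ∪ B.erase w) subset_union_right w k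
  have h4 := Finset.sum_filter_add_sum_filter_not (J G (B.erase w)) (fun T => av G w T)
    (fun T => f G ((K ∪ B.erase w) \ T) k)
  have h5 : nb G (B.erase w) w = nb G B w := by
    ext u
    rw [mem_nb, mem_nb, mem_erase]
    constructor
    · rintro ⟨⟨_, h⟩, h'⟩; exact ⟨h, h'⟩
    · rintro ⟨h, h'⟩
      exact ⟨⟨fun e => by subst e; exact G.loopless.irrefl _ h', h⟩, h'⟩
  rw [h5] at h3
  rw [← h4, mul_add] at h2
  linarith

/-- greedy bound -/
lemma greedy {Y : Finset V} {w : V} (hw : w ∈ Y) (k : ℕ) :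
    ((k : ℝ) - (nb G Y w).card) * f G (Y.erase w) k ≤ f G Y k := by
  rcases k with _ | k
  · have h1 := f_nonneg G (Y.erase w) 0
    have h2 := f_nonneg G Y 0
    have h3 : (0 : ℝ) ≤ ((nb G Y w).card : ℝ) := by positivity
    have : ((0 : ℕ) : ℝ) = 0 := by norm_num
    rw [this]
    nlinarith [mul_nonneg h3 h1]
  · have h := lemF G (K := ∅) (B := Y) (by simp) (by intro a ha; simp at ha) hw k
    rw [Finset.empty_union, Finset.card_empty] at h
    rw [f_succ' G hw]
    push_cast at h ⊢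
    linarith

/-- restricted sums -/
def sm (R Y W : Finset V) (k : ℕ) : ℝ := ∑ S ∈ (J G R).filter (fun S => W ⊆ S), f G (Y \ S) k

lemma sm_nonneg (R Y W : Finset V) (k : ℕ) : 0 ≤ sm G R Y W k :=
  Finset.sum_nonneg (fun S _ => f_nonneg G _ _)

lemma sm_singleton (R Y : Finset V) (u : V) (k : ℕ) :
    sm G R Y {u} k = ∑ S ∈ Jx G R u, f G (Y \ S) k := by
  unfold sm Jx
  simp only [Finset.singleton_subset_iff]

lemma step {R Y W : Finset V} (hRY : R ⊆ Y) {w : V} (hw : w ∈ R) (hwW : w ∉ W) (k : ℕ) :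
    ((k : ℝ) + 1 - (nb G Y w).card) * sm G R Y (insert w W) k ≤ sm G R Y W k := by
  -- split according to membership of w
  have h1 : sm G R Y W k = ∑ S ∈ (J G R).filter (fun S => W ⊆ S ∧ w ∈ S), f G (Y \ S) k
      + ∑ S ∈ (J G R).filter (fun S => W ⊆ S ∧ w ∉ S), f G (Y \ S) k := by
    unfold sm
    rw [← Finset.sum_filter_add_sum_filter_not ((J G R).filter (fun S => W ⊆ S)) (fun S => w ∈ S),
      Finset.filter_filter, Finset.filter_filter]
  have h2 : sm G R Y (insert w W) k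
      = ∑ S ∈ (J G R).filter (fun S => W ⊆ S ∧ w ∈ S), f G (Y \ S) k := by
    unfold sm
    apply Finset.sum_congr _ (fun _ _ => rfl)
    apply Finset.filter_congr
    intro S _
    rw [Finset.insert_subset_iff, and_comm]
  have h3 : ((k : ℝ) - (nb G Y w).card) * sm G R Y (insert w W) k
      ≤ ∑ S ∈ (J G R).filter (fun S => W ⊆ S ∧ w ∉ S), f G (Y \ S) k := by
    rw [h2, mul_sum]
    have h4 : ∀ S ∈ (J G R).filter (fun S => W ⊆ S ∧ w ∈ S),
        ((k : ℝ) - (nb G Y w).card) * f G (Y \ S) k ≤ f G (Y \ S.erase w) k := by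
      intro S hS
      rw [mem_filter, mem_J] at hS
      obtain ⟨⟨hSR, hSi⟩, hWS, hwS⟩ := hS
      have hwY : w ∈ Y \ S.erase w := by
        rw [mem_sdiff]; exact ⟨hRY hw, Finset.notMem_erase w S⟩
      have h5 := greedy G hwY k
      have h6 : (Y \ S.erase w).erase w = Y \ S := by
        conv_rhs => rw [← Finset.insert_erase hwS]
        ext a
        simp only [mem_erase, mem_sdiff, mem_insert]
        tauto
      have h7 : nb G (Y \ S.erase w) w = nb G Y w := by
        ext a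
        rw [mem_nb, mem_nb, mem_sdiff]
        constructor
        · rintro ⟨⟨h, _⟩, h'⟩; exact ⟨h, h'⟩
        · rintro ⟨h, h'⟩
          refine ⟨⟨h, fun ha => ?_⟩, h'⟩
          exact hSi w hwS a (Finset.mem_of_mem_erase ha) h'
      rw [h6, h7] at h5
      exact h5
    refine (Finset.sum_le_sum h4).trans ?_
    rw [← Finset.sum_image (s := (J G R).filter (fun S => W ⊆ S ∧ w ∈ S)) (g := fun S => S.erase w)
      (f := fun T => f G (Y \ T) k)]
    · apply Finset.sum_le_sum_of_subset_of_nonneg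
      · intro T hT
        rw [mem_image] at hT
        obtain ⟨S, hS, rfl⟩ := hT
        rw [mem_filter, mem_J] at hS ⊢
        obtain ⟨⟨hSR, hSi⟩, hWS, hwS⟩ := hS
        refine ⟨⟨(Finset.erase_subset _ _).trans hSR, ?_⟩, ?_, Finset.notMem_erase w S⟩
        · intro a ha b hb
          exact hSi a (Finset.mem_of_mem_erase ha) b (Finset.mem_of_mem_erase hb)
        · intro a ha
          rw [mem_erase]
          exact ⟨fun e => hwW (e ▸ ha), hWS ha⟩
      · intro T _ _
        exact f_nonneg G _ _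
    · intro S hS S' hS' h
      rw [Finset.mem_coe, mem_filter] at hS hS'
      dsimp only at h
      rw [← Finset.insert_erase hS.2.2, h, Finset.insert_erase hS'.2.2]
  have h5 : ((k : ℝ) + 1 - (nb G Y w).card) * sm G R Y (insert w W) k
      = ((k : ℝ) - (nb G Y w).card) * sm G R Y (insert w W) k + sm G R Y (insert w W) k := by ring
  rw [h5, h1]
  linarith

end

end Pool.Agent.R54.CR
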