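import Mathlib
import Pool.Agent.R54.CR.Base

set_option autoImplicit false

open Finset

namespace Pool.Agent.R54.CR

noncomputable section

open Classical
open Pool.Agent.H331R2.ChromLC

variable {V : Type*} [Fintype V] (G : SimpleGraph V)

lemma prod_sm {R Y : Finset V} (hRY : R ⊆ Y) (k : ℕ) (e : V → ℝ) (U : Finset V) (W : Finset V) :
    U ⊆ R → Disjoint U W → (∀ w ∈ U, 0 ≤ e w) →
    (∀ w ∈ U, e w ≤ (k : ℝ) + 1 - (nb G Y w).card) →
    (∏ w ∈ U, e w) * sm G R Y (U ∪ W) k ≤ sm G R Y W k := by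
  induction U using Finset.induction_on with
  | empty =>
    intro _ _ _ _
    simp
  | insert w U hwU ih =>
    intro hU hd he0 he
    rw [Finset.prod_insert hwU]
    have hUR : U ⊆ R := (Finset.subset_insert _ _).trans hU
    have hd' : Disjoint U W := Finset.disjoint_of_subset_left (Finset.subset_insert _ _) hd
    have ih' := ih hUR hd' (fun v hv => he0 v (Finset.mem_insert_of_mem hv))
      (fun v hv => he v (Finset.mem_insert_of_mem hv))
    have hwW : w ∉ U ∪ W := by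
      rw [mem_union]
      rintro (h | h)
      · exact hwU h
      · exact Finset.disjoint_left.1 hd (Finset.mem_insert_self w U) h
    have h1 := step G hRY (hU (Finset.mem_insert_self w U)) hwW k
    have h2 : insert w U ∪ W = insert w (U ∪ W) := Finset.insert_union _ _ _
    rw [h2]
    have h3 : e w * sm G R Y (insert w (U ∪ W)) k ≤ sm G R Y (U ∪ W) k := by
      refine le_trans ?_ h1
      exact mul_le_mul_of_nonneg_right (he w (Finset.mem_insert_self w U)) (sm_nonneg G _ _ _ _)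
    have h4 : 0 ≤ ∏ v ∈ U, e v :=
      Finset.prod_nonneg (fun v hv => he0 v (Finset.mem_insert_of_mem hv))
    calc e w * (∏ v ∈ U, e v) * sm G R Y (insert w (U ∪ W)) k
        = (∏ v ∈ U, e v) * (e w * sm G R Y (insert w (U ∪ W)) k) := by ring
      _ ≤ (∏ v ∈ U, e v) * sm G R Y (U ∪ W) k := mul_le_mul_of_nonneg_left h3 h4
      _ ≤ sm G R Y W k := ih'

omit [Fintype V] in
lemma amgm_prod (s : Finset V) (hs : s.Nonempty) (x : V → ℝ) (hx : ∀ i ∈ s, 0 ≤ x i) :
    ∏ i ∈ s, x i ≤ (∑ i ∈ s, x i ^ s.card) / s.card := by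
  have hc : (0 : ℝ) < (s.card : ℝ) := by exact_mod_cast Finset.card_pos.2 hs
  have h := Real.geom_mean_le_arith_mean_weighted s (fun _ => (s.card : ℝ)⁻¹)
    (fun i => x i ^ s.card) (fun i _ => by positivity)
    (by rw [sum_const, nsmul_eq_mul]; field_simp) (fun i hi => pow_nonneg (hx i hi) _)
  have h1 : ∏ i ∈ s, (x i ^ s.card) ^ ((s.card : ℝ)⁻¹) = ∏ i ∈ s, x i := by
    apply Finset.prod_congr rfl
    intro i hi
    exact Real.pow_rpow_inv_natCast (hx i hi) (Finset.card_pos.2 hs).ne'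
  rw [h1, ← mul_sum] at h
  rw [div_eq_inv_mul]
  exact h

omit [Fintype V] in
lemma amgm2 (W : Finset V) (hW : W.Nonempty) (x : V → ℝ) (hx : ∀ i ∈ W, 0 ≤ x i) (c N : ℝ)
    (hc : 0 ≤ c) (h : ∀ u ∈ W, N ≤ c * ∏ w ∈ W.erase u, x w) :
    N ≤ c / W.card * ∑ u ∈ W, x u ^ (W.card - 1) := by
  have hpos : 0 < W.card := Finset.card_pos.2 hW
  have hposR : (0 : ℝ) < (W.card : ℝ) := by exact_mod_cast hpos
  rcases Nat.lt_or_ge 1 W.card with h2 | h1
  · have hj : (0 : ℝ) < (W.card : ℝ) - 1 := by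
      have : (1 : ℝ) < (W.card : ℝ) := by exact_mod_cast h2
      linarith
    have h3 : ∀ u ∈ W, N ≤ c * ((∑ w ∈ W, x w ^ (W.card - 1) - x u ^ (W.card - 1))
        / ((W.card : ℝ) - 1)) := by
      intro u hu
      refine (h u hu).trans ?_
      apply mul_le_mul_of_nonneg_left _ hc
      have hne : (W.erase u).Nonempty := by
        rw [← Finset.card_pos, Finset.card_erase_of_mem hu]; omega
      have h4 := amgm_prod (W.erase u) hne x (fun i hi => hx i (Finset.mem_of_mem_erase hi))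
      rw [Finset.card_erase_of_mem hu] at h4
      have h5 : ((W.card - 1 : ℕ) : ℝ) = (W.card : ℝ) - 1 := by
        rw [Nat.cast_sub (by omega)]; norm_num
      rw [h5] at h4
      have h6 := Finset.sum_erase_eq_sub (f := fun w => x w ^ (W.card - 1)) hu
      rw [← h6]
      exact h4
    have h4 : ∑ u ∈ W, N ≤ ∑ u ∈ W, c * ((∑ w ∈ W, x w ^ (W.card - 1) - x u ^ (W.card - 1))
        / ((W.card : ℝ) - 1)) := Finset.sum_le_sum h3
    rw [sum_const, nsmul_eq_mul, ← mul_sum, ← sum_div, sum_sub_distrib, sum_const, nsmul_eq_mul] at h4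
    have h5 : c * (((W.card : ℝ) * ∑ w ∈ W, x w ^ (W.card - 1) - ∑ w ∈ W, x w ^ (W.card - 1))
        / ((W.card : ℝ) - 1)) = c * ∑ w ∈ W, x w ^ (W.card - 1) := by
      field_simp
    rw [h5] at h4
    rw [div_mul_eq_mul_div, le_div_iff₀ hposR]
    linarith
  · have h1' : W.card = 1 := by omega
    rw [Finset.card_eq_one] at h1'
    obtain ⟨u, rfl⟩ := h1'
    have := h u (Finset.mem_singleton_self u)
    simpa using this

omit [Fintype V] in
lemma nb_notMem (A : Finset V) (w : V) : w ∉ nb G A w := by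
  rw [mem_nb]; rintro ⟨_, h⟩; exact G.loopless.irrefl _ h

/-- counting the independent sets through `u` -/
lemma sum_Jx_card_le {B0 : Finset V} {u : V} (hu : u ∈ B0) (φ : ℕ → ℝ) (hφ : ∀ i, 0 ≤ φ i) :
    ∑ W ∈ Jx G B0 u, φ (W.card - 1)
      ≤ ∑ i ∈ range B0.card, ((B0.card - 1 - (nb G B0 u).card).choose i : ℝ) * φ i := by
  rw [sum_Jx_erase G hu]
  have h1 : ∑ T ∈ (J G (B0.erase u)).filter (fun T => av G u T), φ ((insert u T).card - 1)
      = ∑ T ∈ (J G (B0.erase u)).filter (fun T => av G u T), φ T.card := by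
    apply Finset.sum_congr rfl
    intro T hT
    rw [mem_filter, mem_J] at hT
    rw [Finset.card_insert_of_notMem (fun h => Finset.notMem_erase u B0 (hT.1.1 h))]
    simp
  rw [h1]
  have hcard : ((B0.erase u) \ nb G B0 u).card = B0.card - 1 - (nb G B0 u).card := by
    rw [Finset.card_sdiff_of_subset, Finset.card_erase_of_mem hu]
    intro a ha
    rw [mem_erase]
    refine ⟨fun e => nb_notMem G B0 u (e ▸ ha), ?_⟩
    rw [mem_nb] at ha; exact ha.1
  have h2 : ∑ T ∈ (J G (B0.erase u)).filter (fun T => av G u T), φ T.card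
      ≤ ∑ T ∈ ((B0.erase u) \ nb G B0 u).powerset, φ T.card := by
    apply Finset.sum_le_sum_of_subset_of_nonneg
    · intro T hT
      rw [mem_filter, mem_J] at hT
      obtain ⟨⟨h3, _⟩, h4⟩ := hT
      rw [mem_powerset]
      intro a ha
      rw [mem_sdiff]
      refine ⟨h3 ha, fun h => ?_⟩
      rw [mem_nb] at h
      exact h4 a ha h.2
    · intro T _ _
      exact hφ _
  refine h2.trans ?_
  rw [Finset.sum_powerset_apply_card, hcard]
  simp only [nsmul_eq_mul]
  apply Finset.sum_le_sum_of_subset_of_nonneg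
  · intro i hi
    rw [mem_range] at hi ⊢
    have : 0 < B0.card := Finset.card_pos.2 ⟨u, hu⟩
    omega
  · intro i _ _
    exact mul_nonneg (Nat.cast_nonneg _) (hφ _)

/-- the general upper bound -/
lemma gen {B0 R Y : Finset V} (hBR : B0 ⊆ R) (hRY : R ⊆ Y) (k : ℕ) (s : ℝ) (hs : 0 ≤ s)
    (e : V → ℝ) (he0 : ∀ w ∈ B0, 0 < e w)
    (he : ∀ w ∈ B0, e w ≤ (k : ℝ) + 1 - (nb G Y w).card) :
    ((k : ℝ) + 1) * ∑ S ∈ J G R, ((1 + s) ^ (S ∩ B0).card - 1) * f G (Y \ S) k
      ≤ f G Y (k + 1) * ∑ u ∈ B0, ∑ i ∈ range B0.card,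
          ((B0.card - 1 - (nb G B0 u).card).choose i : ℝ) * (s ^ (i + 1) / (i + 1) * ((e u)⁻¹) ^ i) := by
  have h1 : ∀ S : Finset V, (1 + s) ^ (S ∩ B0).card - 1
      = ∑ W ∈ (S ∩ B0).powerset.erase ∅, s ^ W.card := by
    intro S
    have h := Finset.sum_pow_mul_eq_add_pow s 1 (S ∩ B0)
    simp only [one_pow, mul_one] at h
    rw [add_comm s 1] at h
    rw [Finset.sum_erase_eq_sub (Finset.empty_mem_powerset _), h]
    simp
  have h2 : ∑ S ∈ J G R, ((1 + s) ^ (S ∩ B0).card - 1) * f G (Y \ S) k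
      = ∑ W ∈ (J G B0).erase ∅, s ^ W.card * sm G R Y W k := by
    unfold sm
    simp only [h1, Finset.sum_mul, Finset.mul_sum]
    apply Finset.sum_comm'
    intro S W
    simp only [mem_erase, mem_powerset, mem_filter, mem_J]
    constructor
    · rintro ⟨⟨ha, hb⟩, hc, hd⟩
      exact ⟨⟨⟨ha, hb⟩, hd.trans inter_subset_left⟩, hc, hd.trans inter_subset_right,
        fun a ha b hb' => hb a (inter_subset_left (hd ha)) b (inter_subset_left (hd hb'))⟩
    · rintro ⟨⟨⟨ha, hb⟩, hd⟩, hc, he, _⟩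
      exact ⟨⟨ha, hb⟩, hc, subset_inter hd he⟩
  have h3 : ∀ W ∈ (J G B0).erase ∅, ((k : ℝ) + 1) * sm G R Y W k
      ≤ f G Y (k + 1) / W.card * ∑ u ∈ W, ((e u)⁻¹) ^ (W.card - 1) := by
    intro W hW
    rw [mem_erase, mem_J] at hW
    obtain ⟨hW0, hWB, hWi⟩ := hW
    apply amgm2 W (Finset.nonempty_iff_ne_empty.2 hW0) (fun u => (e u)⁻¹)
      (fun i hi => (inv_pos.2 (he0 i (hWB hi))).le) _ _ (f_nonneg G _ _)
    intro u hu
    have h4 := prod_sm G hRY k e (W.erase u) {u}
      ((Finset.erase_subset _ _).trans (hWB.trans hBR))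
      (by rw [Finset.disjoint_singleton_right]; exact Finset.notMem_erase u W)
      (fun w hw => (he0 w (hWB (Finset.mem_of_mem_erase hw))).le)
      (fun w hw => he w (hWB (Finset.mem_of_mem_erase hw)))
    have h5 : W.erase u ∪ {u} = W := by
      rw [Finset.union_comm, ← Finset.insert_eq, Finset.insert_erase hu]
    rw [h5, sm_singleton] at h4
    have h6 := sum_Jx_le G hRY (hBR (hWB hu)) k
    have h7 : 0 < ∏ w ∈ W.erase u, e w :=
      Finset.prod_pos (fun w hw => he0 w (hWB (Finset.mem_of_mem_erase hw)))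
    have h8 : ∏ w ∈ W.erase u, (e w)⁻¹ = (∏ w ∈ W.erase u, e w)⁻¹ := by
      rw [Finset.prod_inv_distrib]
    rw [h8, ← div_eq_mul_inv, le_div_iff₀ h7]
    have h9 : ((k : ℝ) + 1) * ((∏ w ∈ W.erase u, e w) * sm G R Y W k)
        ≤ ((k : ℝ) + 1) * ∑ S ∈ Jx G R u, f G (Y \ S) k :=
      mul_le_mul_of_nonneg_left h4 (by positivity)
    calc ((k : ℝ) + 1) * sm G R Y W k * ∏ w ∈ W.erase u, e w
        = ((k : ℝ) + 1) * ((∏ w ∈ W.erase u, e w) * sm G R Y W k) := by ring
      _ ≤ _ := h9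
      _ ≤ _ := h6
  rw [h2, mul_sum]
  calc ∑ W ∈ (J G B0).erase ∅, ((k : ℝ) + 1) * (s ^ W.card * sm G R Y W k)
      ≤ ∑ W ∈ (J G B0).erase ∅, s ^ W.card *
          (f G Y (k + 1) / W.card * ∑ u ∈ W, ((e u)⁻¹) ^ (W.card - 1)) := by
        apply Finset.sum_le_sum
        intro W hW
        have := mul_le_mul_of_nonneg_left (h3 W hW) (pow_nonneg hs W.card)
        calc ((k : ℝ) + 1) * (s ^ W.card * sm G R Y W k)
            = s ^ W.card * (((k : ℝ) + 1) * sm G R Y W k) := by ring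
          _ ≤ _ := this
    _ = ∑ W ∈ (J G B0).erase ∅, ∑ u ∈ W,
          f G Y (k + 1) * (s ^ ((W.card - 1) + 1) / (((W.card - 1 : ℕ) : ℝ) + 1)
            * ((e u)⁻¹) ^ (W.card - 1)) := by
        apply Finset.sum_congr rfl
        intro W hW
        rw [mem_erase] at hW
        have hc : 1 ≤ W.card := Finset.card_pos.2 (Finset.nonempty_iff_ne_empty.2 hW.1)
        rw [Nat.sub_add_cancel hc]
        have : (((W.card - 1 : ℕ) : ℝ) + 1) = W.card := by
          rw [Nat.cast_sub hc]; push_cast; ring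
        rw [this, mul_sum, mul_sum]
        apply Finset.sum_congr rfl
        intro u _
        ring
    _ = ∑ u ∈ B0, ∑ W ∈ Jx G B0 u,
          f G Y (k + 1) * (s ^ ((W.card - 1) + 1) / (((W.card - 1 : ℕ) : ℝ) + 1)
            * ((e u)⁻¹) ^ (W.card - 1)) := by
        apply Finset.sum_comm'
        intro W u
        rw [mem_erase, mem_J, mem_Jx]
        constructor
        · rintro ⟨⟨_, hb⟩, hc⟩
          exact ⟨⟨hb, hc⟩, hb.1 hc⟩
        · rintro ⟨⟨ha, hb⟩, _⟩
          exact ⟨⟨fun h => by rw [h] at hb; exact absurd hb (Finset.notMem_empty u), ha⟩, hb⟩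
    _ ≤ ∑ u ∈ B0, f G Y (k + 1) * ∑ i ∈ range B0.card,
          ((B0.card - 1 - (nb G B0 u).card).choose i : ℝ)
            * (s ^ (i + 1) / (i + 1) * ((e u)⁻¹) ^ i) := by
        apply Finset.sum_le_sum
        intro u hu
        rw [← mul_sum]
        apply mul_le_mul_of_nonneg_left _ (f_nonneg G _ _)
        exact sum_Jx_card_le G hu (fun i => s ^ (i + 1) / ((i : ℝ) + 1) * ((e u)⁻¹) ^ i)
          (fun i => mul_nonneg (by positivity) (pow_nonneg (inv_pos.2 (he0 u hu)).le _))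
    _ = _ := by rw [mul_sum]

end

end Pool.Agent.R54.CR
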