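import Mathlib
import Pool.Agent.R54.CR.Gen

set_option autoImplicit false

open Finset

namespace Pool.Agent.R54.CR

noncomputable section

open Classical
open Pool.Agent.H331R2.ChromLC

variable {V : Type*} [Fintype V] (G : SimpleGraph V)

omit [Fintype V] in
lemma nb_sdiff_card_le (B S : Finset V) (w : V) : (nb G (B \ S) w).card ≤ (nb G B w).card := by
  apply Finset.card_le_card
  intro u hu
  rw [mem_nb] at hu ⊢
  exact ⟨(mem_sdiff.1 hu.1).1, hu.2⟩

omit [Fintype V] in
lemma union_sdiff_right {K B S : Finset V} (hd : Disjoint K B) (hS : S ⊆ B) :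
    (K ∪ B) \ S = K ∪ (B \ S) := by
  ext a
  simp only [mem_sdiff, mem_union]
  constructor
  · rintro ⟨h | h, h'⟩
    · exact Or.inl h
    · exact Or.inr ⟨h, h'⟩
  · rintro (h | ⟨h, h'⟩)
    · exact ⟨Or.inl h, fun h' => Finset.disjoint_left.1 hd h (hS h')⟩
    · exact ⟨Or.inr h, h'⟩

/-- pair bound -/
lemma pair_le {K B : Finset V} (hd : Disjoint K B) (hK : clq G K) {w w' : V} (hw : w ∈ B)
    (hw' : w' ∈ B) (hne : w ≠ w') (k : ℕ)
    (hpos : 0 ≤ (k : ℝ) + 1 - K.card - (nb G B w).card) :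
    ((k : ℝ) + 2 - K.card - (nb G B w).card)
        * ∑ S ∈ (Jx G B w).filter (fun S => w' ∈ S), f G ((K ∪ B) \ S) (k + 1)
      ≤ ∑ S ∈ Jx G B w, f G ((K ∪ B) \ S) (k + 1) := by
  rw [← Finset.sum_filter_add_sum_filter_not (Jx G B w) (fun S => w' ∈ S)]
  have main : ((k : ℝ) + 1 - K.card - (nb G B w).card)
        * ∑ S ∈ (Jx G B w).filter (fun S => w' ∈ S), f G ((K ∪ B) \ S) (k + 1)
      ≤ ∑ S ∈ (Jx G B w).filter (fun S => ¬ w' ∈ S), f G ((K ∪ B) \ S) (k + 1) := by
    -- lower bound by double sum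
    have h1 : ∑ S ∈ (Jx G B w).filter (fun S => ¬ w' ∈ S),
          ((k : ℝ) + 1) * ∑ S' ∈ Jx G (B \ S) w', f G (((K ∪ B) \ S) \ S') k
        ≤ ∑ S ∈ (Jx G B w).filter (fun S => ¬ w' ∈ S), f G ((K ∪ B) \ S) (k + 1) := by
      apply Finset.sum_le_sum
      intro S hS
      rw [mem_filter, mem_Jx] at hS
      apply sum_Jx_le G (R := B \ S) (Y := (K ∪ B) \ S)
      · exact Finset.sdiff_subset_sdiff subset_union_right (Finset.Subset.refl _)
      · rw [mem_sdiff]; exact ⟨hw', hS.2⟩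
    have h2 : ∑ S ∈ (Jx G B w).filter (fun S => ¬ w' ∈ S),
          ((k : ℝ) + 1) * ∑ S' ∈ Jx G (B \ S) w', f G (((K ∪ B) \ S) \ S') k
        = ∑ S' ∈ (Jx G B w').filter (fun S' => ¬ w ∈ S'),
          ((k : ℝ) + 1) * ∑ S ∈ Jx G (B \ S') w, f G (((K ∪ B) \ S') \ S) k := by
      simp only [mul_sum]
      have hcomm : ∀ S S' : Finset V, ((K ∪ B) \ S) \ S' = ((K ∪ B) \ S') \ S := by
        intro S S'
        ext a; simp only [mem_sdiff]; tauto
      refine (Finset.sum_comm' (t' := (Jx G B w').filter (fun S' => ¬ w ∈ S'))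
        (s' := fun S' => Jx G (B \ S') w) ?_).trans
        (Finset.sum_congr rfl (fun S' _ => Finset.sum_congr rfl (fun S _ => by rw [hcomm])))
      intro S S'
      simp only [mem_filter, mem_Jx]
      constructor
      · rintro ⟨⟨⟨⟨a1, a2⟩, a3⟩, a4⟩, ⟨⟨b1, b2⟩, b3⟩⟩
        refine ⟨⟨⟨fun y hy => ?_, a2⟩, a3⟩, ⟨⟨⟨fun y hy => (mem_sdiff.1 (b1 hy)).1, b2⟩, b3⟩,
          fun h => (mem_sdiff.1 (b1 h)).2 a3⟩⟩
        rw [mem_sdiff]
        exact ⟨a1 hy, fun h => (mem_sdiff.1 (b1 h)).2 hy⟩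
      · rintro ⟨⟨⟨a1, a2⟩, a3⟩, ⟨⟨⟨b1, b2⟩, b3⟩, b4⟩⟩
        refine ⟨⟨⟨⟨fun y hy => (mem_sdiff.1 (a1 hy)).1, a2⟩, a3⟩,
          fun h => (mem_sdiff.1 (a1 h)).2 b3⟩, ⟨⟨fun y hy => ?_, b2⟩, b3⟩⟩
        rw [mem_sdiff]
        exact ⟨b1 hy, fun h => (mem_sdiff.1 (a1 h)).2 hy⟩
    have h3 : ∑ S' ∈ (Jx G B w').filter (fun S' => ¬ w ∈ S'),
          ((k : ℝ) + 1 - K.card - (nb G B w).card) * f G (((K ∪ B) \ S').erase w) (k + 1)
        ≤ ∑ S' ∈ (Jx G B w').filter (fun S' => ¬ w ∈ S'),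
          ((k : ℝ) + 1) * ∑ S ∈ Jx G (B \ S') w, f G (((K ∪ B) \ S') \ S) k := by
      apply Finset.sum_le_sum
      intro S' hS'
      rw [mem_filter, mem_Jx] at hS'
      obtain ⟨⟨⟨b1, b2⟩, b3⟩, b4⟩ := hS'
      have hd' : Disjoint K (B \ S') := Finset.disjoint_of_subset_right Finset.sdiff_subset hd
      have h4 := lemF G hd' hK (w := w) (by rw [mem_sdiff]; exact ⟨hw, b4⟩) k
      rw [union_sdiff_right hd b1]
      refine le_trans ?_ h4
      apply mul_le_mul_of_nonneg_right _ (f_nonneg G _ _)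
      have h5 : ((nb G (B \ S') w).card : ℝ) ≤ ((nb G B w).card : ℝ) := by
        exact_mod_cast nb_sdiff_card_le G B S' w
      linarith
    have h6 : ∑ S ∈ (Jx G B w).filter (fun S => w' ∈ S), f G ((K ∪ B) \ S) (k + 1)
        ≤ ∑ S' ∈ (Jx G B w').filter (fun S' => ¬ w ∈ S'), f G (((K ∪ B) \ S').erase w) (k + 1) := by
      have h7 : ∀ S ∈ (Jx G B w).filter (fun S => w' ∈ S), f G ((K ∪ B) \ S) (k + 1)
          = f G (((K ∪ B) \ S.erase w).erase w) (k + 1) := by
        intro S hS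
        rw [mem_filter, mem_Jx] at hS
        congr 1
        ext a
        simp only [mem_erase, mem_sdiff]
        constructor
        · rintro ⟨h, h'⟩
          exact ⟨fun e => h' (e ▸ hS.1.2), h, fun h'' => h' h''.2⟩
        · rintro ⟨h, h', h''⟩
          exact ⟨h', fun h3 => h'' ⟨h, h3⟩⟩
      rw [Finset.sum_congr rfl h7]
      rw [← Finset.sum_image (s := (Jx G B w).filter (fun S => w' ∈ S)) (g := fun S => S.erase w)
        (f := fun T => f G (((K ∪ B) \ T).erase w) (k + 1))]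
      · apply Finset.sum_le_sum_of_subset_of_nonneg
        · intro T hT
          rw [mem_image] at hT
          obtain ⟨S, hS, rfl⟩ := hT
          rw [mem_filter, mem_Jx] at hS ⊢
          obtain ⟨⟨⟨c1, c2⟩, c3⟩, c4⟩ := hS
          refine ⟨⟨⟨(Finset.erase_subset _ _).trans c1, ?_⟩, ?_⟩, Finset.notMem_erase w S⟩
          · intro a ha b hb
            exact c2 a (Finset.mem_of_mem_erase ha) b (Finset.mem_of_mem_erase hb)
          · rw [mem_erase]; exact ⟨hne.symm, c4⟩
        · intro T _ _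
          exact f_nonneg G _ _
      · intro S hS S' hS' h
        rw [Finset.mem_coe, mem_filter, mem_Jx] at hS hS'
        dsimp only at h
        rw [← Finset.insert_erase hS.1.2, h, Finset.insert_erase hS'.1.2]
    calc _ ≤ ((k : ℝ) + 1 - K.card - (nb G B w).card)
            * ∑ S' ∈ (Jx G B w').filter (fun S' => ¬ w ∈ S'), f G (((K ∪ B) \ S').erase w) (k + 1) :=
          mul_le_mul_of_nonneg_left h6 hpos
      _ = ∑ S' ∈ (Jx G B w').filter (fun S' => ¬ w ∈ S'),
          ((k : ℝ) + 1 - K.card - (nb G B w).card) * f G (((K ∪ B) \ S').erase w) (k + 1) := by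
          rw [mul_sum]
      _ ≤ _ := h3
      _ = _ := h2.symm
      _ ≤ _ := h1
  have e : ((k : ℝ) + 2 - K.card - (nb G B w).card)
        * ∑ S ∈ (Jx G B w).filter (fun S => w' ∈ S), f G ((K ∪ B) \ S) (k + 1)
      = ((k : ℝ) + 1 - K.card - (nb G B w).card)
        * ∑ S ∈ (Jx G B w).filter (fun S => w' ∈ S), f G ((K ∪ B) \ S) (k + 1)
        + ∑ S ∈ (Jx G B w).filter (fun S => w' ∈ S), f G ((K ∪ B) \ S) (k + 1) := by ring
  rw [e]
  linarith

/-- lower bound for the sum over the independent sets of `B` through `w` -/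
lemma one_ge {K B : Finset V} (hd : Disjoint K B) (hK : clq G K) {w : V} (hw : w ∈ B) (k : ℕ)
    (hpos : 0 ≤ (k : ℝ) + 1 - K.card - (nb G B w).card) :
    ((k : ℝ) + 1 - K.card - (nb G B w).card) * f G (K ∪ B) (k + 1)
      ≤ (((k : ℝ) + 1) * ∑ S ∈ Jx G B w, f G ((K ∪ B) \ S) k)
        * ((k : ℝ) + 1 - (nb G B w).card - (nb G K w).card) := by
  have hF := lemF G hd hK hw k
  set n1 := ((k : ℝ) + 1) * ∑ S ∈ Jx G B w, f G ((K ∪ B) \ S) k with hn1
  have hwK : w ∉ K := fun h => Finset.disjoint_left.1 hd h hw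
  have h1 : f G (K ∪ B) (k + 1)
      ≤ n1 + ((K.card : ℝ) - (nb G K w).card) * f G ((K ∪ B).erase w) (k + 1) := by
    rw [f_succ' G (mem_union_right K hw)]
    have h2 : ∑ S ∈ Jx G (K ∪ B) w, f G ((K ∪ B) \ S) k
        ≤ ∑ S ∈ Jx G B w, f G ((K ∪ B) \ S) k
          + ∑ y ∈ K \ nb G K w, ∑ S ∈ (Jx G (K ∪ B) w).filter (fun S => y ∈ S),
              f G ((K ∪ B) \ S) k := by
      have h3 : ∑ S ∈ Jx G B w, f G ((K ∪ B) \ S) k
          = ∑ S ∈ (Jx G (K ∪ B) w).filter (fun S => S ⊆ B), f G ((K ∪ B) \ S) k := by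
        apply Finset.sum_congr _ (fun _ _ => rfl)
        ext S
        rw [mem_filter, mem_Jx, mem_Jx]
        constructor
        · rintro ⟨⟨a1, a2⟩, a3⟩
          exact ⟨⟨⟨a1.trans subset_union_right, a2⟩, a3⟩, a1⟩
        · rintro ⟨⟨⟨a1, a2⟩, a3⟩, a4⟩
          exact ⟨⟨a4, a2⟩, a3⟩
      rw [h3]
      simp only [Finset.sum_filter]
      rw [Finset.sum_comm, ← Finset.sum_add_distrib]
      apply Finset.sum_le_sum
      intro S hS
      rw [mem_Jx] at hS
      by_cases hSB : S ⊆ B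
      · rw [if_pos hSB]
        have : 0 ≤ ∑ y ∈ K \ nb G K w, if y ∈ S then f G ((K ∪ B) \ S) k else 0 := by
          apply Finset.sum_nonneg
          intro y _
          split_ifs
          · exact f_nonneg G _ _
          · exact le_refl _
        linarith
      · rw [if_neg hSB, zero_add]
        rw [Finset.not_subset] at hSB
        obtain ⟨y, hy, hyB⟩ := hSB
        have hyK : y ∈ K := by
          have := hS.1.1 hy
          rw [mem_union] at this
          exact this.resolve_right hyB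
        have hymem : y ∈ K \ nb G K w := by
          rw [mem_sdiff, mem_nb]
          exact ⟨hyK, fun h => hS.1.2 w hS.2 y hy h.2⟩
        have h4 := Finset.single_le_sum (f := fun y => if y ∈ S then f G ((K ∪ B) \ S) k else 0)
          (s := K \ nb G K w) (fun y _ => by
            split_ifs
            · exact f_nonneg G _ _
            · exact le_refl _) hymem
        simp only [hy, if_true] at h4
        exact h4
    have h5 : ∀ y ∈ K \ nb G K w,
        ((k : ℝ) + 1) * ∑ S ∈ (Jx G (K ∪ B) w).filter (fun S => y ∈ S), f G ((K ∪ B) \ S) k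
          ≤ f G ((K ∪ B).erase w) (k + 1) := by
      intro y hy
      rw [mem_sdiff] at hy
      have hyw : y ≠ w := fun e => hwK (e ▸ hy.1)
      have hyA : y ∈ (K ∪ B).erase w := by
        rw [mem_erase]; exact ⟨hyw, mem_union_left B hy.1⟩
      rw [f_succ' G hyA]
      apply mul_le_mul_of_nonneg_left _ (by positivity)
      have h7 : ∀ S ∈ (Jx G (K ∪ B) w).filter (fun S => y ∈ S), f G ((K ∪ B) \ S) k
          = f G (((K ∪ B).erase w) \ S.erase w) k := by
        intro S hS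
        rw [mem_filter, mem_Jx] at hS
        congr 1
        ext a
        simp only [mem_erase, mem_sdiff]
        constructor
        · rintro ⟨h, h'⟩
          exact ⟨⟨fun e => h' (e ▸ hS.1.2), h⟩, fun h'' => h' h''.2⟩
        · rintro ⟨⟨h, h'⟩, h''⟩
          exact ⟨h', fun h3 => h'' ⟨h, h3⟩⟩
      rw [Finset.sum_congr rfl h7]
      rw [← Finset.sum_image (s := (Jx G (K ∪ B) w).filter (fun S => y ∈ S))
        (g := fun S => S.erase w) (f := fun T => f G (((K ∪ B).erase w) \ T) k)]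
      · apply Finset.sum_le_sum_of_subset_of_nonneg
        · intro T hT
          rw [mem_image] at hT
          obtain ⟨S, hS, rfl⟩ := hT
          rw [mem_filter, mem_Jx] at hS
          rw [mem_Jx]
          obtain ⟨⟨⟨c1, c2⟩, c3⟩, c4⟩ := hS
          refine ⟨⟨Finset.erase_subset_erase w c1, ?_⟩, ?_⟩
          · intro a ha b hb
            exact c2 a (Finset.mem_of_mem_erase ha) b (Finset.mem_of_mem_erase hb)
          · rw [mem_erase]; exact ⟨hyw, c4⟩
        · intro T _ _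
          exact f_nonneg G _ _
      · intro S hS S' hS' h
        rw [Finset.mem_coe, mem_filter, mem_Jx] at hS hS'
        dsimp only at h
        rw [← Finset.insert_erase hS.1.2, h, Finset.insert_erase hS'.1.2]
    have h6 : ((k : ℝ) + 1) * ∑ y ∈ K \ nb G K w,
          ∑ S ∈ (Jx G (K ∪ B) w).filter (fun S => y ∈ S), f G ((K ∪ B) \ S) k
        ≤ ((K.card : ℝ) - (nb G K w).card) * f G ((K ∪ B).erase w) (k + 1) := by
      rw [mul_sum]
      refine (Finset.sum_le_sum h5).trans ?_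
      rw [sum_const, nsmul_eq_mul]
      have : nb G K w ⊆ K := by
        intro a ha; rw [mem_nb] at ha; exact ha.1
      rw [Finset.card_sdiff_of_subset this, Nat.cast_sub (Finset.card_le_card this)]
    have h8 := mul_le_mul_of_nonneg_left h2 (show (0 : ℝ) ≤ (k : ℝ) + 1 by positivity)
    rw [mul_add] at h8
    linarith
  have h9 : (0 : ℝ) ≤ (K.card : ℝ) - (nb G K w).card := by
    have : nb G K w ⊆ K := by
      intro a ha; rw [mem_nb] at ha; exact ha.1
    have h10 : ((nb G K w).card : ℝ) ≤ K.card := by exact_mod_cast Finset.card_le_card this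
    linarith
  have h11 := mul_le_mul_of_nonneg_left h1 hpos
  have h12 := mul_le_mul_of_nonneg_left hF h9
  nlinarith

/-- (I1), first form -/
lemma I1 {K B : Finset V} {x : V} (hxK : x ∉ K) (hxB : x ∉ B)
    (hadj : ∀ y ∈ K, G.Adj x y) (k : ℕ) :
    f G (insert x (K ∪ B)) (k + 1)
      = ((k : ℝ) + 1) * ∑ T ∈ (J G B).filter (fun T => av G x T), f G ((K ∪ B) \ T) k := by
  have hx : x ∉ K ∪ B := by rw [mem_union]; rintro (h | h); exacts [hxK h, hxB h]
  rw [f_succ' G (Finset.mem_insert_self x (K ∪ B)), sum_Jx_insert G hx]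
  congr 1
  have h1 : (J G (K ∪ B)).filter (fun T => av G x T) = (J G B).filter (fun T => av G x T) := by
    ext T
    rw [mem_filter, mem_filter, mem_J, mem_J]
    constructor
    · rintro ⟨⟨a1, a2⟩, a3⟩
      refine ⟨⟨fun y hy => ?_, a2⟩, a3⟩
      have := a1 hy
      rw [mem_union] at this
      exact this.resolve_left (fun h => a3 y hy (hadj y h))
    · rintro ⟨⟨a1, a2⟩, a3⟩
      exact ⟨⟨a1.trans subset_union_right, a2⟩, a3⟩
  rw [h1]
  apply Finset.sum_congr rfl
  intro T _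
  congr 1
  rw [sdiff_insert_eq, Finset.erase_insert hx]

/-- (I1), second form -/
lemma I1' {K B : Finset V} {x : V} (hd : Disjoint K B) (hK : clq G K) (hxK : x ∉ K) (hxB : x ∉ B)
    (hadj : ∀ y ∈ K, G.Adj x y) (k : ℕ) :
    f G (insert x (K ∪ B)) (k + 1)
      = ((k : ℝ) + 1 - K.card) * f G (K ∪ B) (k + 1)
        - ((k : ℝ) + 1) * ∑ T ∈ (J G B).filter (fun T => ¬ av G x T), f G ((K ∪ B) \ T) k := by
  have h1 := I1 G hxK hxB hadj k
  have h2 := I0 G hd hK k
  have h3 := Finset.sum_filter_add_sum_filter_not (J G B) (fun T => av G x T)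
    (fun T => f G ((K ∪ B) \ T) k)
  rw [← h3, mul_add] at h2
  linarith

omit [Fintype V] in
lemma insert_erase_union {K B : Finset V} {x : V} (hx : x ∈ K) :
    insert x (K.erase x ∪ B) = K ∪ B := by
  rw [← Finset.insert_union, Finset.insert_erase hx]

lemma fA_le {K B : Finset V} (hd : Disjoint K B) (hK : clq G K) {x : V} (hx : x ∈ K) (k : ℕ) :
    f G (K ∪ B) (k + 1) ≤ ((k : ℝ) + 2 - K.card) * f G (K.erase x ∪ B) (k + 1) := by
  have hd' : Disjoint (K.erase x) B := Finset.disjoint_of_subset_left (Finset.erase_subset _ _) hd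
  have hK' : clq G (K.erase x) := fun a ha b hb hab =>
    hK a (Finset.mem_of_mem_erase ha) b (Finset.mem_of_mem_erase hb) hab
  have h1 := I1' G hd' hK' (Finset.notMem_erase x K) (fun h => Finset.disjoint_left.1 hd hx h)
    (fun y hy => hK x hx y (Finset.mem_of_mem_erase hy) (fun e => by
      subst e; exact Finset.notMem_erase _ _ hy)) k
  rw [insert_erase_union hx] at h1
  rw [h1]
  have h2 : 0 ≤ ∑ T ∈ (J G B).filter (fun T => ¬ av G x T), f G ((K.erase x ∪ B) \ T) k :=
    Finset.sum_nonneg (fun T _ => f_nonneg G _ _)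
  have h3 : ((K.erase x).card : ℝ) = (K.card : ℝ) - 1 := by
    rw [Finset.card_erase_of_mem hx, Nat.cast_sub (Finset.card_pos.2 ⟨x, hx⟩)]; simp
  rw [h3]
  have h4 : 0 ≤ ((k : ℝ) + 1) * ∑ T ∈ (J G B).filter (fun T => ¬ av G x T),
      f G ((K.erase x ∪ B) \ T) k := mul_nonneg (by positivity) h2
  linarith

/-- Bonferroni type lower bound -/
lemma bonf (B N : Finset V) (F : Finset V → ℝ) (hF : ∀ S, 0 ≤ F S) (P : Finset V → Prop)
    (hP : ∀ S ∈ J G B, P S → (N ∩ S).card = 0) :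
    ∑ w ∈ N, ∑ S ∈ Jx G B w, F S
      - (1 / 2) * ∑ w ∈ N, ∑ w' ∈ N.erase w, ∑ S ∈ (Jx G B w).filter (fun S => w' ∈ S), F S
      ≤ ∑ S ∈ (J G B).filter (fun S => ¬ P S), F S := by
  have h1 : ∑ w ∈ N, ∑ w' ∈ N.erase w, ∑ S ∈ (Jx G B w).filter (fun S => w' ∈ S), F S
      = ∑ S ∈ J G B, ((N ∩ S).card : ℝ) * ((((N ∩ S).card : ℝ) - 1) * F S) := by
    rw [double_count]
    apply Finset.sum_congr rfl
    intro w hw
    simp only [Finset.sum_filter]
    rw [Finset.sum_comm]
    apply Finset.sum_congr rfl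
    intro S hS
    rw [mem_Jx] at hS
    rw [← Finset.sum_filter, sum_const, nsmul_eq_mul]
    congr 1
    have h2 : (N.erase w).filter (fun a => a ∈ S) = (N ∩ S).erase w := by
      ext a; simp only [mem_filter, mem_erase, mem_inter]; tauto
    rw [h2, Finset.card_erase_of_mem (by rw [mem_inter]; exact ⟨hw, hS.2⟩)]
    rw [Nat.cast_sub (Finset.card_pos.2 ⟨w, by rw [mem_inter]; exact ⟨hw, hS.2⟩⟩)]
    simp
  rw [h1, ← double_count, mul_sum, ← sum_sub_distrib, Finset.sum_filter]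
  apply Finset.sum_le_sum
  intro S hS
  by_cases hPS : P S
  · rw [if_neg (not_not.2 hPS), hP S hS hPS]; simp
  · rw [if_pos hPS]
    have hF' := hF S
    rcases Nat.eq_zero_or_pos (N ∩ S).card with h0 | h0
    · rw [h0]; simpa using hF'
    · set t : ℕ := (N ∩ S).card with ht
      have h3 : (0 : ℝ) ≤ ((t : ℝ) - 1) * ((t : ℝ) - 2) := by
        rcases Nat.lt_or_ge t 2 with h | h
        · have : t = 1 := by omega
          rw [this]; norm_num
        · have : (2 : ℝ) ≤ t := by exact_mod_cast h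
          apply mul_nonneg <;> linarith
      have h4 := mul_nonneg h3 hF'
      nlinarith

end

end Pool.Agent.R54.CR
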