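import Mathlib

set_option autoImplicit false

open Finset

namespace Pool.Agent.R54.CR

lemma choose_real (a i : ℕ) :
    (a.choose (i + 1) : ℝ) * ((i : ℝ) + 1) = (a.choose i : ℝ) * ((a : ℝ) - i) := by
  have h := Nat.choose_succ_right_eq a i
  rcases le_or_gt i a with hi | hi
  · have h1 : ((a.choose (i + 1) * (i + 1) : ℕ) : ℝ) = ((a.choose i * (a - i) : ℕ) : ℝ) := by
      rw [h]
    push_cast [Nat.cast_sub hi] at h1
    exact h1
  · rw [Nat.choose_eq_zero_of_lt hi, Nat.choose_eq_zero_of_lt (by omega)]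
    simp

lemma geom_sum_bound (t : ℕ → ℝ) (r : ℝ) (hr : 0 ≤ r) (ht : ∀ j, 0 ≤ t j)
    (h : ∀ j, t (j + 1) ≤ r * t j) (N : ℕ) : (1 - r) * ∑ j ∈ range N, t j ≤ t 0 := by
  rcases N with _ | N
  · simp [ht 0]
  · have h1 : ∑ j ∈ range (N + 1), t j = ∑ j ∈ range N, t (j + 1) + t 0 :=
      Finset.sum_range_succ' t N
    have h2 : ∑ j ∈ range N, t (j + 1) ≤ r * ∑ j ∈ range N, t j := by
      rw [mul_sum]; exact Finset.sum_le_sum (fun j _ => h j)
    have h3 : ∑ j ∈ range N, t j ≤ ∑ j ∈ range (N + 1), t j := by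
      rw [Finset.sum_range_succ]; linarith [ht N]
    have h4 : r * ∑ j ∈ range N, t j ≤ r * ∑ j ∈ range (N + 1), t j :=
      mul_le_mul_of_nonneg_left h3 hr
    linarith

/-- coefficient comparison -/
lemma coef (q d k : ℕ) (hd : d ≤ q) (lam M : ℝ) (hM : M = lam - d - k) (hMpos : 0 < M)
    (haM : ((q - d : ℕ) : ℝ) ≤ M) (hqk : (q : ℝ) + k ≤ lam) (i : ℕ) :
    ((q - d).choose i : ℝ) * (M⁻¹) ^ i ≤ (q.choose i : ℝ) * (lam⁻¹) ^ i
      + (k * ((q - d : ℕ) : ℝ) / (lam * M)) * ((i : ℝ) / (i.factorial : ℝ)) := by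
  have hlam : 0 < lam := by
    have h1 : (0 : ℝ) ≤ d := Nat.cast_nonneg _
    have h2 : (0 : ℝ) ≤ k := Nat.cast_nonneg _
    linarith
  have hq0 : (0 : ℝ) ≤ q := Nat.cast_nonneg _
  have hk0 : (0 : ℝ) ≤ k := Nat.cast_nonneg _
  have hd0 : (0 : ℝ) ≤ d := Nat.cast_nonneg _
  have hcast : ((q - d : ℕ) : ℝ) = (q : ℝ) - d := Nat.cast_sub hd
  have ha0 : (0 : ℝ) ≤ ((q - d : ℕ) : ℝ) := Nat.cast_nonneg _
  set a := q - d with ha
  set ρ := (k * (a : ℝ) / (lam * M)) with hρ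
  have hρ0 : 0 ≤ ρ := by positivity
  induction i with
  | zero => simp
  | succ i ih =>
    have hi0 : (0 : ℝ) ≤ i := Nat.cast_nonneg _
    have hfac : (0 : ℝ) < (i.factorial : ℝ) := by exact_mod_cast Nat.factorial_pos i
    rcases le_or_gt a i with hai | hai
    · rw [Nat.choose_eq_zero_of_lt (by omega)]
      have : (0 : ℝ) < lam⁻¹ := inv_pos.2 hlam
      have h1 : 0 ≤ ((q.choose (i + 1) : ℕ) : ℝ) * (lam⁻¹) ^ (i + 1) := by positivity
      have h2 : 0 ≤ ρ * (((i + 1 : ℕ) : ℝ) / ((i + 1).factorial : ℝ)) := by positivity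
      simp only [Nat.cast_zero, zero_mul]
      linarith
    · have hia : (i : ℝ) ≤ a := by exact_mod_cast hai.le
      -- the ratio
      have ht0 : 0 ≤ ((a : ℝ) - i) * M⁻¹ := mul_nonneg (by linarith) (inv_pos.2 hMpos).le
      have ht1 : ((a : ℝ) - i) * M⁻¹ ≤ 1 := by
        rw [← div_eq_mul_inv, div_le_one hMpos]; linarith
      have ht2 : ((a : ℝ) - i) * M⁻¹ ≤ ((q : ℝ) - i) * lam⁻¹ + ρ := by
        rw [hρ, ← div_eq_mul_inv, ← div_eq_mul_inv]
        rw [div_add_div _ _ hlam.ne' (mul_pos hlam hMpos).ne', div_le_div_iff₀ hMpos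
          (mul_pos hlam (mul_pos hlam hMpos))]
        rw [hcast, hM]
        have hMpos' : 0 < lam - d - k := by rw [← hM]; exact hMpos
        have key : 0 ≤ lam * (lam - d - k) * (d * (lam - q - k) + i * (d + k)) := by
          apply mul_nonneg (mul_nonneg hlam.le hMpos'.le)
          apply add_nonneg
          · exact mul_nonneg hd0 (by linarith)
          · exact mul_nonneg hi0 (by linarith)
        nlinarith [key]
      have hei : (q.choose i : ℝ) * (lam⁻¹) ^ i ≤ 1 / (i.factorial : ℝ) := by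
        have h1 : (q.choose i : ℝ) ≤ (q : ℝ) ^ i / (i.factorial : ℝ) := by
          have := Nat.choose_le_pow_div (α := ℝ) i q
          exact this
        have h2 : (q : ℝ) ^ i * (lam⁻¹) ^ i ≤ 1 := by
          rw [← mul_pow]
          apply pow_le_one₀ (mul_nonneg hq0 (inv_pos.2 hlam).le)
          rw [← div_eq_mul_inv, div_le_one hlam]; linarith
        calc (q.choose i : ℝ) * (lam⁻¹) ^ i
            ≤ (q : ℝ) ^ i / (i.factorial : ℝ) * (lam⁻¹) ^ i :=
              mul_le_mul_of_nonneg_right h1 (pow_nonneg (inv_pos.2 hlam).le _)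
          _ = ((q : ℝ) ^ i * (lam⁻¹) ^ i) / (i.factorial : ℝ) := by ring
          _ ≤ 1 / (i.factorial : ℝ) := by
              apply div_le_div_of_nonneg_right h2 hfac.le
      have hei0 : 0 ≤ (q.choose i : ℝ) * (lam⁻¹) ^ i :=
        mul_nonneg (Nat.cast_nonneg _) (pow_nonneg (inv_pos.2 hlam).le _)
      have hc1 := choose_real a i
      have hc2 := choose_real q i
      have hi1 : (0 : ℝ) < (i : ℝ) + 1 := by linarith
      -- main computation multiplied by (i+1)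
      have main : ((a.choose (i + 1) : ℕ) : ℝ) * (M⁻¹) ^ (i + 1) * ((i : ℝ) + 1)
          ≤ (((q.choose (i + 1) : ℕ) : ℝ) * (lam⁻¹) ^ (i + 1)
            + ρ * (1 / (i.factorial : ℝ))) * ((i : ℝ) + 1) := by
        have e1 : ((a.choose (i + 1) : ℕ) : ℝ) * (M⁻¹) ^ (i + 1) * ((i : ℝ) + 1)
            = ((a.choose i : ℝ) * (M⁻¹) ^ i) * (((a : ℝ) - i) * M⁻¹) := by
          rw [pow_succ]
          linear_combination ((M⁻¹) ^ i * M⁻¹) * hc1
        have e2 : ((q.choose (i + 1) : ℕ) : ℝ) * (lam⁻¹) ^ (i + 1) * ((i : ℝ) + 1)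
            = ((q.choose i : ℝ) * (lam⁻¹) ^ i) * (((q : ℝ) - i) * lam⁻¹) := by
          rw [pow_succ]
          linear_combination ((lam⁻¹) ^ i * lam⁻¹) * hc2
        rw [e1, add_mul, e2]
        have s1 : ((a.choose i : ℝ) * (M⁻¹) ^ i) * (((a : ℝ) - i) * M⁻¹)
            ≤ ((q.choose i : ℝ) * (lam⁻¹) ^ i + ρ * ((i : ℝ) / (i.factorial : ℝ)))
              * (((a : ℝ) - i) * M⁻¹) := mul_le_mul_of_nonneg_right ih ht0
        have s2 : ((q.choose i : ℝ) * (lam⁻¹) ^ i) * (((a : ℝ) - i) * M⁻¹)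
            ≤ ((q.choose i : ℝ) * (lam⁻¹) ^ i) * (((q : ℝ) - i) * lam⁻¹ + ρ) :=
          mul_le_mul_of_nonneg_left ht2 hei0
        have s3 : (ρ * ((i : ℝ) / (i.factorial : ℝ))) * (((a : ℝ) - i) * M⁻¹)
            ≤ (ρ * ((i : ℝ) / (i.factorial : ℝ))) * 1 :=
          mul_le_mul_of_nonneg_left ht1 (mul_nonneg hρ0 (div_nonneg hi0 hfac.le))
        have s4 : ((q.choose i : ℝ) * (lam⁻¹) ^ i) * ρ ≤ 1 / (i.factorial : ℝ) * ρ :=
          mul_le_mul_of_nonneg_right hei hρ0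
        have e3 : ρ * (1 / (i.factorial : ℝ)) * ((i : ℝ) + 1)
            = ρ * ((i : ℝ) / (i.factorial : ℝ)) * 1 + 1 / (i.factorial : ℝ) * ρ := by
          field_simp
        rw [e3]
        nlinarith
      have h5 := le_of_mul_le_mul_right main hi1
      have h6 : (((i + 1 : ℕ) : ℝ) / ((i + 1).factorial : ℝ)) = 1 / (i.factorial : ℝ) := by
        rw [Nat.factorial_succ]
        push_cast
        field_simp
      rw [h6]
      exact h5

/-- the tail sum -/
lemma tail_sum (n : ℕ) (hn : 1 ≤ n) :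
    ∑ i ∈ range (n + 1), ((1 / (n : ℝ)) ^ (i + 1) / ((i : ℝ) + 1)) * ((i : ℝ) / (i.factorial : ℝ))
      ≤ 3 / 4 * (1 / (n : ℝ)) ^ 2 := by
  rcases Nat.lt_or_ge 1 n with h2 | h1
  · have hn2 : (2 : ℝ) ≤ n := by exact_mod_cast h2
    set s : ℝ := 1 / (n : ℝ) with hs
    have hs0 : 0 < s := by positivity
    have hs1 : s ≤ 1 / 2 := by
      rw [hs]; apply one_div_le_one_div_of_le (by norm_num) hn2
    rw [Finset.sum_range_succ']
    simp only [Nat.cast_zero, zero_div, mul_zero, add_zero]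
    set t : ℕ → ℝ := fun i => (s ^ (i + 1 + 1) / (((i + 1 : ℕ) : ℝ) + 1))
      * (((i + 1 : ℕ) : ℝ) / ((i + 1).factorial : ℝ)) with ht
    have hb := geom_sum_bound t (1 / 3) (by norm_num) (fun j => by rw [ht]; positivity)
      (fun j => by
        have hj0 : (0 : ℝ) ≤ j := Nat.cast_nonneg _
        have hfac : (0 : ℝ) < (j.factorial : ℝ) := by exact_mod_cast Nat.factorial_pos j
        have e1 : t (j + 1) = (s * (((j : ℝ) + 2) / (((j : ℝ) + 3) * ((j : ℝ) + 1)))) * t j := by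
          rw [ht]
          simp only [Nat.factorial_succ]
          push_cast
          have h1 : (j : ℝ) + 1 ≠ 0 := by positivity
          have h2 : (j : ℝ) + 1 + 1 ≠ 0 := by positivity
          have h3 : (j : ℝ) + 1 + 1 + 1 ≠ 0 := by positivity
          have h4 : (j : ℝ) + 3 ≠ 0 := by positivity
          field_simp
          ring
        rw [e1]
        apply mul_le_mul_of_nonneg_right _ (by rw [ht]; positivity)
        have h5 : ((j : ℝ) + 2) / (((j : ℝ) + 3) * ((j : ℝ) + 1)) ≤ 2 / 3 := by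
          rw [div_le_div_iff₀ (by positivity) (by norm_num)]
          nlinarith
        have h6 : 0 ≤ ((j : ℝ) + 2) / (((j : ℝ) + 3) * ((j : ℝ) + 1)) := by positivity
        calc s * (((j : ℝ) + 2) / (((j : ℝ) + 3) * ((j : ℝ) + 1)))
            ≤ (1 / 2) * (2 / 3) := mul_le_mul hs1 h5 h6 (by norm_num)
          _ = 1 / 3 := by norm_num) n
    have h0 : t 0 = s ^ 2 / 2 := by rw [ht]; simp; ring
    rw [h0] at hb
    have : ∑ i ∈ range n, t i ≤ 3 / 4 * s ^ 2 := by linarith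
    exact this
  · have : n = 1 := by omega
    subst this
    simp [Finset.sum_range_succ]
    norm_num

/-- the comparison of the two main sums -/
lemma I_sub_J (n m d k : ℕ) (hn : 1 ≤ n) (hd : d ≤ m - 1) (lam M : ℝ)
    (hM : M = lam - d - k) (hMpos : 0 < M)
    (haM : ((m - 1 - d : ℕ) : ℝ) ≤ M) (hqk : ((m - 1 : ℕ) : ℝ) + k ≤ lam) (han : m - 1 - d ≤ n) :
    ∑ i ∈ range m, ((m - 1 - d).choose i : ℝ)
        * ((1 / (n : ℝ)) ^ (i + 1) / ((i : ℝ) + 1) * (M⁻¹) ^ i)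
      - ∑ i ∈ range m, ((m - 1).choose i : ℝ)
        * ((1 / (n : ℝ)) ^ (i + 1) / ((i : ℝ) + 1) * (lam⁻¹) ^ i)
      ≤ (k * ((m - 1 - d : ℕ) : ℝ) / (lam * M)) * (3 / 4 * (1 / (n : ℝ)) ^ 2) := by
  have hlam : 0 < lam := by
    have h1 : (0 : ℝ) ≤ d := Nat.cast_nonneg _
    have h2 : (0 : ℝ) ≤ k := Nat.cast_nonneg _
    linarith
  have hρ0 : 0 ≤ (k * ((m - 1 - d : ℕ) : ℝ) / (lam * M)) := by positivity
  rw [← Finset.sum_sub_distrib]
  have h1 : ∀ i ∈ range m, ((m - 1 - d).choose i : ℝ)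
        * ((1 / (n : ℝ)) ^ (i + 1) / ((i : ℝ) + 1) * (M⁻¹) ^ i)
      - ((m - 1).choose i : ℝ)
        * ((1 / (n : ℝ)) ^ (i + 1) / ((i : ℝ) + 1) * (lam⁻¹) ^ i)
      ≤ if i ∈ range (n + 1) then (k * ((m - 1 - d : ℕ) : ℝ) / (lam * M))
        * (((1 / (n : ℝ)) ^ (i + 1) / ((i : ℝ) + 1)) * ((i : ℝ) / (i.factorial : ℝ))) else 0 := by
    intro i _
    have hw : 0 ≤ (1 / (n : ℝ)) ^ (i + 1) / ((i : ℝ) + 1) := by positivity
    by_cases hi : i ∈ range (n + 1)
    · rw [if_pos hi]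
      have h2 := coef (m - 1) d k hd lam M hM hMpos haM hqk i
      have h3 := mul_le_mul_of_nonneg_left h2 hw
      linarith
    · rw [if_neg hi]
      rw [mem_range] at hi
      rw [Nat.choose_eq_zero_of_lt (show m - 1 - d < i by omega)]
      have : 0 < lam⁻¹ := inv_pos.2 hlam
      have h4 : 0 ≤ ((m - 1).choose i : ℝ)
        * ((1 / (n : ℝ)) ^ (i + 1) / ((i : ℝ) + 1) * (lam⁻¹) ^ i) := by positivity
      simp only [Nat.cast_zero, zero_mul]
      linarith
  refine (Finset.sum_le_sum h1).trans ?_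
  rw [← Finset.sum_filter, ← mul_sum]
  apply mul_le_mul_of_nonneg_left _ hρ0
  refine le_trans ?_ (tail_sum n hn)
  apply Finset.sum_le_sum_of_subset_of_nonneg
  · intro i hi
    rw [mem_filter] at hi
    exact hi.2
  · intro i _ _
    positivity

/-- evaluation of the second sum -/
lemma J_eval (m : ℕ) (hm : 1 ≤ m) (s lam : ℝ) (hlam : 0 < lam) :
    (m : ℝ) * ∑ i ∈ range m, ((m - 1).choose i : ℝ) * (s ^ (i + 1) / ((i : ℝ) + 1) * (lam⁻¹) ^ i)
      = lam * ((1 + s / lam) ^ m - 1) := by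
  have h1 : (1 + s / lam) ^ m = ∑ j ∈ range (m + 1), (m.choose j : ℝ) * (s / lam) ^ j := by
    rw [add_comm, add_pow]
    apply Finset.sum_congr rfl
    intro j _
    simp; ring
  rw [h1, Finset.sum_range_succ']
  simp only [Nat.choose_zero_right, Nat.cast_one, pow_zero, mul_one, add_sub_cancel_right]
  rw [mul_sum, mul_sum]
  apply Finset.sum_congr rfl
  intro i _
  obtain ⟨p, rfl⟩ : ∃ p, m = p + 1 := ⟨m - 1, by omega⟩
  rw [Nat.add_sub_cancel]
  have h2 := Nat.add_one_mul_choose_eq p i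
  have h3 : ((p : ℝ) + 1) * (p.choose i : ℝ) = ((p + 1).choose (i + 1) : ℝ) * ((i : ℝ) + 1) := by
    exact_mod_cast h2
  push_cast
  rw [div_pow, pow_succ lam i, inv_pow]
  have hi1 : (i : ℝ) + 1 ≠ 0 := by positivity
  field_simp
  linear_combination (s * s ^ i) * h3

/-- lower bound for the slack coefficient -/
lemma delta_bound (n q : ℕ) (hn : 1 ≤ n) (M0 : ℝ) (h1 : (q : ℝ) + 1 ≤ M0) (h2 : M0 ≤ n + 1) :
    (1 / (n : ℝ)) / 2 * (M0 - q) ≤ M0 * (1 / (n : ℝ))
      - ∑ i ∈ range q, (q.choose (i + 1) : ℝ) * ((1 / (n : ℝ)) ^ (i + 1) * (M0⁻¹) ^ i) := by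
  have hnR : (1 : ℝ) ≤ n := by exact_mod_cast hn
  have hq0 : (0 : ℝ) ≤ q := Nat.cast_nonneg _
  have hM0 : 0 < M0 := by linarith
  set s : ℝ := 1 / (n : ℝ) with hs
  have hs0 : 0 < s := by positivity
  have hs1 : s ≤ 1 := by rw [hs, div_le_one (by linarith)]; exact hnR
  have hsn : s * n = 1 := by rw [hs]; field_simp
  rcases Nat.eq_zero_or_pos q with rfl | hq
  · simp
    nlinarith
  · obtain ⟨p, rfl⟩ : ∃ p, q = p + 1 := ⟨q - 1, by omega⟩
    rw [Finset.sum_range_succ']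
    simp only [zero_add, pow_zero, mul_one, pow_one, Nat.choose_one_right]
    set t : ℕ → ℝ := fun i => ((p + 1).choose (i + 1 + 1) : ℝ) * (s ^ (i + 1 + 1) * (M0⁻¹) ^ (i + 1))
      with ht
    have hMi : 0 < M0⁻¹ := inv_pos.2 hM0
    have ht0 : ∀ j, 0 ≤ t j := fun j => by rw [ht]; positivity
    have hb := geom_sum_bound t (s / 3) (by positivity) ht0
      (fun j => by
        have hj0 : (0 : ℝ) ≤ j := Nat.cast_nonneg _
        have hc := choose_real (p + 1) (j + 1 + 1)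
        push_cast at hc
        have e1 : t (j + 1) * ((j : ℝ) + 3) = (s * M0⁻¹ * ((p : ℝ) + 1 - ((j : ℝ) + 1 + 1))) * t j := by
          rw [ht]
          simp only
          rw [pow_succ s (j + 1 + 1), pow_succ (M0⁻¹) (j + 1)]
          linear_combination (s ^ (j + 1 + 1) * s * ((M0⁻¹) ^ (j + 1) * M0⁻¹)) * hc
        have e2 : (s * M0⁻¹ * ((p : ℝ) + 1 - ((j : ℝ) + 1 + 1))) * t j ≤ s * t j := by
          apply mul_le_mul_of_nonneg_right _ (ht0 j)
          have : M0⁻¹ * ((p : ℝ) + 1 - ((j : ℝ) + 1 + 1)) ≤ 1 := by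
            rw [inv_mul_le_iff₀ hM0]
            push_cast at h1
            linarith
          calc s * M0⁻¹ * ((p : ℝ) + 1 - ((j : ℝ) + 1 + 1))
              = s * (M0⁻¹ * ((p : ℝ) + 1 - ((j : ℝ) + 1 + 1))) := by ring
            _ ≤ s * 1 := mul_le_mul_of_nonneg_left this hs0.le
            _ = s := mul_one s
        have e3 : t (j + 1) * 3 ≤ t (j + 1) * ((j : ℝ) + 3) :=
          mul_le_mul_of_nonneg_left (by linarith) (ht0 (j + 1))
        have e4 : t (j + 1) * 3 ≤ s * t j := by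
          calc t (j + 1) * 3 ≤ _ := e3
            _ = _ := e1
            _ ≤ _ := e2
        linarith) p
    have hc1 := choose_real (p + 1) 1
    rw [Nat.choose_one_right] at hc1
    push_cast at hc1
    have h0 : t 0 = ((p : ℝ) + 1) * p / 2 * s ^ 2 * M0⁻¹ := by
      rw [ht]
      simp only [zero_add, pow_one]
      linear_combination (s ^ 2 * M0⁻¹ / 2) * hc1
    have hp0 : (0 : ℝ) ≤ p := Nat.cast_nonneg _
    push_cast at h1 hq0 ⊢
    -- key numeric inequality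
    have key : t 0 ≤ (1 - s / 3) * (s / 2 * (M0 - ((p : ℝ) + 1))) := by
      rw [h0]
      have e5 : ((p : ℝ) + 1) * p * s ≤ (1 - s / 3) * (M0 - ((p : ℝ) + 1)) * M0 := by
        have e6 : 3 * (((p : ℝ) + 1) * p) ≤ (3 * n - 1) * (M0 - ((p : ℝ) + 1)) * M0 := by
          have e7 : 3 * (((p : ℝ) + 1) * p) ≤ (3 * n - 1) * M0 := by
            have : ((p : ℝ) + 1) * p ≤ (M0 - 1) * (M0 - 2) := by nlinarith
            have h3n : 3 * M0 - 4 ≤ 3 * (n : ℝ) - 1 := by linarith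
            nlinarith
          have e8 : (3 * (n : ℝ) - 1) * M0 * 1 ≤ (3 * n - 1) * M0 * (M0 - ((p : ℝ) + 1)) := by
            apply mul_le_mul_of_nonneg_left (by linarith)
            exact mul_nonneg (by linarith) hM0.le
          linarith
        have e9 := mul_le_mul_of_nonneg_left e6 (show (0 : ℝ) ≤ s / 3 by positivity)
        have e10 : s / 3 * ((3 * n - 1) * (M0 - ((p : ℝ) + 1)) * M0)
            = (1 - s / 3) * (M0 - ((p : ℝ) + 1)) * M0 := by
          have : s / 3 * (3 * n - 1) = 1 - s / 3 := by linear_combination hsn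
          calc s / 3 * ((3 * n - 1) * (M0 - ((p : ℝ) + 1)) * M0)
              = (s / 3 * (3 * n - 1)) * (M0 - ((p : ℝ) + 1)) * M0 := by ring
            _ = _ := by rw [this]
        linarith
      have e11 : ((p : ℝ) + 1) * p / 2 * s ^ 2 * M0⁻¹ = (s / 2) * (((p : ℝ) + 1) * p * s) * M0⁻¹ := by
        ring
      rw [e11]
      have e12 : (s / 2) * (((p : ℝ) + 1) * p * s) * M0⁻¹
          ≤ (s / 2) * ((1 - s / 3) * (M0 - ((p : ℝ) + 1)) * M0) * M0⁻¹ := by
        apply mul_le_mul_of_nonneg_right _ hMi.le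
        exact mul_le_mul_of_nonneg_left e5 (by positivity)
      refine e12.trans (le_of_eq ?_)
      field_simp
    have hpos : 0 < 1 - s / 3 := by linarith
    have hfin := le_of_mul_le_mul_left (hb.trans key) hpos
    linarith

/-- the final scalar inequality -/
lemma final_ineq (n m d k w : ℕ) (hn : 1 ≤ n) (hm : 1 ≤ m) (hdm : d ≤ m - 1) (hkw : k ≤ w)
    (hw : 1 ≤ w) (hmw : m + w ≤ n + 2) :
    (w : ℝ) * ((k * ((m - 1 - d : ℕ) : ℝ) / (((n : ℝ) + 2) * ((n : ℝ) + 2 - d - k)))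
        * (3 / 4 * (1 / (n : ℝ)) ^ 2))
      ≤ ((1 / (n : ℝ)) / 2 * ((n : ℝ) + 3 - w - m))
        * (k * (((n : ℝ) + 3 - w - d) * (2 * ((n : ℝ) + 3 - w) - m + 1)
          / (2 * ((n : ℝ) + 3 - w) ^ 2 * ((n : ℝ) + 3 - d - k)))) := by
  obtain ⟨a, ha⟩ : ∃ a, m - 1 - d = a := ⟨_, rfl⟩
  have hm' : m = a + d + 1 := by omega
  obtain ⟨r, hr⟩ : ∃ r, n + 2 = m + w + r := ⟨n + 2 - m - w, by omega⟩
  rw [ha]
  have hnR : (1 : ℝ) ≤ n := by exact_mod_cast hn
  have hn' : (n : ℝ) = a + d + w + r - 1 := by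
    have : (n : ℝ) + 2 = (m : ℝ) + w + r := by exact_mod_cast hr
    rw [hm'] at this
    push_cast at this
    linarith
  have hmR : (m : ℝ) = a + d + 1 := by rw [hm']; push_cast; ring
  have ha0 : (0 : ℝ) ≤ a := Nat.cast_nonneg _
  have hd0 : (0 : ℝ) ≤ d := Nat.cast_nonneg _
  have hr0 : (0 : ℝ) ≤ r := Nat.cast_nonneg _
  have hk0 : (0 : ℝ) ≤ k := Nat.cast_nonneg _
  have hw1 : (1 : ℝ) ≤ w := by exact_mod_cast hw
  have hkw' : (k : ℝ) ≤ w := by exact_mod_cast hkw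
  -- L
  set L : ℝ := (n : ℝ) + 3 - w with hL
  have hLv : L = a + d + r + 2 := by rw [hL, hn']; ring
  set M : ℝ := (n : ℝ) + 2 - d - k with hMdef
  have hMv : M = a + w + r + 1 - k := by rw [hMdef, hn']; ring
  have hMpos : 0 < M := by rw [hMv]; linarith
  have hM1 : a + 1 ≤ M := by rw [hMv]; linarith
  have hLpos : 0 < L := by rw [hLv]; linarith
  have hM' : (n : ℝ) + 3 - d - k = M + 1 := by rw [hMdef]; ring
  rw [hM']
  have hnpos : (0 : ℝ) < n := by linarith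
  -- core inequality
  have core1 : ((m : ℝ) - 1) * (L - 1) * (L + 2) ≤ (L - 2) * (m * (L - m) * (2 * L - m + 1)) := by
    rw [hmR, hLv]
    obtain ⟨p, hp⟩ : ∃ p : ℝ, p = a + d := ⟨_, rfl⟩
    have hp0 : 0 ≤ p := by rw [hp]; linarith
    have e : ((a : ℝ) + d + 1 - 1) = p := by rw [hp]; ring
    have e2 : (a : ℝ) + d + r + 2 = p + r + 2 := by rw [hp]
    have e3 : (a : ℝ) + d + 1 = p + 1 := by rw [hp]
    rw [e, e2, e3]
    have : 0 ≤ (p + r + 2 - 2) * ((p + 1) * (p + r + 2 - (p + 1)) * (2 * (p + r + 2) - (p + 1) + 1))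
        - p * (p + r + 2 - 1) * (p + r + 2 + 2) := by
      ring_nf
      positivity
    linarith
  have core2 : 3 * (w : ℝ) * L ^ 2 * ((m : ℝ) - 1)
      ≤ m * (L - m) * (2 * L - m + 1) * ((n + 2) * n) := by
    have hX0 : 0 ≤ (m : ℝ) * (L - m) * (2 * L - m + 1) := by
      rw [hmR, hLv]
      apply mul_nonneg (mul_nonneg (by linarith) (by linarith)) (by linarith)
    have hm1 : 0 ≤ (m : ℝ) - 1 := by rw [hmR]; linarith
    have c1 : L ^ 2 ≤ (L - 1) * (L + 2) := by nlinarith [hLv]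
    have c2 : ((m : ℝ) - 1) * L ^ 2 ≤ (L - 2) * (m * (L - m) * (2 * L - m + 1)) := by
      refine le_trans ?_ core1
      rw [mul_assoc]
      exact mul_le_mul_of_nonneg_left c1 hm1
    have c3 : 3 * (w : ℝ) * (L - 2) ≤ (n + 2) * n := by
      have hwL : (w : ℝ) + (L - 2) = n + 1 := by rw [hL]; ring
      have hsq : 4 * ((w : ℝ) * (L - 2)) ≤ ((n : ℝ) + 1) ^ 2 := by
        rw [← hwL]; nlinarith [sq_nonneg ((w : ℝ) - (L - 2))]
      nlinarith
    calc 3 * (w : ℝ) * L ^ 2 * ((m : ℝ) - 1) = 3 * (w : ℝ) * (((m : ℝ) - 1) * L ^ 2) := by ring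
      _ ≤ 3 * (w : ℝ) * ((L - 2) * (m * (L - m) * (2 * L - m + 1))) :=
          mul_le_mul_of_nonneg_left c2 (by positivity)
      _ = (3 * (w : ℝ) * (L - 2)) * (m * (L - m) * (2 * L - m + 1)) := by ring
      _ ≤ ((n + 2) * n) * (m * (L - m) * (2 * L - m + 1)) := mul_le_mul_of_nonneg_right c3 hX0
      _ = _ := by ring
  -- pass from core2 to the inequality with a, d
  have hLm : 0 ≤ L - m := by rw [hLv, hmR]; linarith
  have h2L : 0 ≤ 2 * L - m + 1 := by rw [hLv, hmR]; linarith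
  have core3 : 3 * (w : ℝ) * L ^ 2 * a * (M + 1)
      ≤ (L - m) * (2 * L - m + 1) * ((n + 2) * n) * (L - d) * M := by
    have hmpos : (0 : ℝ) < m := by rw [hmR]; linarith
    -- a * m ≤ (m-1)(a+1)
    have g1 : (a : ℝ) * m ≤ (m - 1) * (a + 1) := by rw [hmR]; nlinarith
    have g2 : (a + 1) * (M + 1) ≤ (a + 2) * M := by nlinarith
    have g3 : (a : ℝ) + 2 ≤ L - d := by rw [hLv]; linarith
    have P0 : 0 ≤ 3 * (w : ℝ) * L ^ 2 := by positivity
    have Q0 : 0 ≤ (L - m) * (2 * L - m + 1) * ((n + 2) * n) := by positivity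
    have s1 : (3 * (w : ℝ) * L ^ 2 * a * (M + 1)) * (m * (a + 1))
        ≤ ((L - m) * (2 * L - m + 1) * ((n + 2) * n) * (L - d) * M) * (m * (a + 1)) := by
      calc (3 * (w : ℝ) * L ^ 2 * a * (M + 1)) * (m * (a + 1))
          = (3 * (w : ℝ) * L ^ 2 * (a * m)) * ((a + 1) * (M + 1)) := by ring
        _ ≤ (3 * (w : ℝ) * L ^ 2 * ((m - 1) * (a + 1))) * ((a + 2) * M) := by
            apply mul_le_mul (mul_le_mul_of_nonneg_left g1 P0) g2 (by positivity)
            apply mul_nonneg P0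
            apply mul_nonneg _ (by linarith)
            rw [hmR]; linarith
        _ = (3 * (w : ℝ) * L ^ 2 * (m - 1)) * ((a + 1) * ((a + 2) * M)) := by ring
        _ ≤ (m * (L - m) * (2 * L - m + 1) * ((n + 2) * n)) * ((a + 1) * ((a + 2) * M)) :=
            mul_le_mul_of_nonneg_right core2 (by positivity)
        _ ≤ (m * (L - m) * (2 * L - m + 1) * ((n + 2) * n)) * ((a + 1) * ((L - d) * M)) := by
            apply mul_le_mul_of_nonneg_left
            · apply mul_le_mul_of_nonneg_left _ (by linarith)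
              exact mul_le_mul_of_nonneg_right g3 hMpos.le
            · positivity
        _ = _ := by ring
    exact le_of_mul_le_mul_right s1 (mul_pos hmpos (by linarith))
  have hLHS : (w : ℝ) * ((k * (a : ℝ) / (((n : ℝ) + 2) * M)) * (3 / 4 * (1 / (n : ℝ)) ^ 2))
      = (k * (1 / n) / (4 * ((n + 2) * n) * M * (M + 1) * L ^ 2))
        * (3 * (w : ℝ) * L ^ 2 * a * (M + 1)) := by
    have h1 : (n : ℝ) + 2 ≠ 0 := by positivity
    have h2 : M + 1 ≠ 0 := by positivity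
    field_simp
  have hRHS : ((1 / (n : ℝ)) / 2 * (L - m))
        * (k * ((L - d) * (2 * L - m + 1) / (2 * L ^ 2 * (M + 1))))
      = (k * (1 / n) / (4 * ((n + 2) * n) * M * (M + 1) * L ^ 2))
        * ((L - m) * (2 * L - m + 1) * ((n + 2) * n) * (L - d) * M) := by
    have h1 : (n : ℝ) + 2 ≠ 0 := by positivity
    have h2 : M + 1 ≠ 0 := by positivity
    field_simp
    ring
  rw [hLHS, hRHS]
  apply mul_le_mul_of_nonneg_left core3
  positivity

end Pool.Agent.R54.CR
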