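import Mathlib
import Pool.Agent.R54.CR.Lower
import Pool.Agent.R54.CR.Num

set_option autoImplicit false

open Finset

namespace Pool.Agent.R54.CR

noncomputable section

open Classical
open Pool.Agent.H331R2.ChromLC

variable {V : Type*} [Fintype V] (G : SimpleGraph V)

omit [Fintype V] in
lemma nb_card_lt {B : Finset V} {w : V} (hw : w ∈ B) : (nb G B w).card + 1 ≤ B.card := by
  have h : nb G B w ⊆ B.erase w := by
    intro u hu
    rw [mem_nb] at hu
    rw [mem_erase]
    exact ⟨fun e => by subst e; exact G.loopless.irrefl _ hu.2, hu.1⟩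
  have h1 := Finset.card_le_card h
  rw [Finset.card_erase_of_mem hw] at h1
  have h2 : 0 < B.card := Finset.card_pos.2 ⟨w, hw⟩
  omega

omit [Fintype V] in
lemma clq_erase {K : Finset V} (hK : clq G K) (x : V) : clq G (K.erase x) :=
  fun a ha b hb hab => hK a (Finset.mem_of_mem_erase ha) b (Finset.mem_of_mem_erase hb) hab

lemma pair_sum_le {K B : Finset V} (hd : Disjoint K B) (hK : clq G K) (n : ℕ)
    (hm : (B.card : ℝ) + K.card ≤ n + 1) {N : Finset V} (hN : N ⊆ B) {w : V} (hw : w ∈ N) :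
    ∑ w' ∈ N.erase w, ∑ S ∈ (Jx G B w).filter (fun S => w' ∈ S), f G ((K ∪ B) \ S) (n + 1)
      ≤ (((B.card : ℝ) - 1) / ((n : ℝ) + 2 - K.card))
          * ∑ S ∈ Jx G B w, f G ((K ∪ B) \ S) (n + 1) := by
  have hwB := hN hw
  set n1 := ∑ S ∈ Jx G B w, f G ((K ∪ B) \ S) (n + 1) with hn1
  have hn1' : 0 ≤ n1 := Finset.sum_nonneg (fun S _ => f_nonneg G _ _)
  have hdw : ((nb G B w).card : ℝ) + 1 ≤ B.card := by exact_mod_cast nb_card_lt G hwB
  have hLd : 0 < (n : ℝ) + 2 - K.card - (nb G B w).card := by linarith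
  have h1 : ∀ w' ∈ N.erase w,
      ∑ S ∈ (Jx G B w).filter (fun S => w' ∈ S), f G ((K ∪ B) \ S) (n + 1)
        ≤ if w' ∈ (N.erase w) \ nb G B w then
            n1 / ((n : ℝ) + 2 - K.card - (nb G B w).card) else 0 := by
    intro w' hw'
    rw [mem_erase] at hw'
    by_cases h : G.Adj w w'
    · have h2 : (Jx G B w).filter (fun S => w' ∈ S) = ∅ := by
        rw [Finset.filter_eq_empty_iff]
        intro S hS hS'
        rw [mem_Jx] at hS
        exact hS.1.2 w hS.2 w' hS' h
      rw [h2, Finset.sum_empty]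
      split_ifs
      · positivity
      · exact le_refl _
    · rw [if_pos (by rw [mem_sdiff, mem_nb, mem_erase]; exact ⟨hw', fun h' => h h'.2⟩)]
      rw [le_div_iff₀ hLd, mul_comm]
      exact pair_le G hd hK hwB (hN hw'.2) (fun e => hw'.1 e.symm) n (by linarith)
  refine (Finset.sum_le_sum h1).trans ?_
  rw [← Finset.sum_filter, sum_const, nsmul_eq_mul]
  have h2 : (((N.erase w).filter (fun w' => w' ∈ (N.erase w) \ nb G B w)).card : ℝ)
      ≤ (B.card : ℝ) - 1 - (nb G B w).card := by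
    have h3 : (N.erase w).filter (fun w' => w' ∈ (N.erase w) \ nb G B w)
        ⊆ (B.erase w) \ nb G B w := by
      intro a ha
      rw [mem_filter, mem_sdiff, mem_erase] at ha
      rw [mem_sdiff, mem_erase]
      exact ⟨⟨ha.1.1, hN ha.1.2⟩, ha.2.2⟩
    have h4 := Finset.card_le_card h3
    have h5 : nb G B w ⊆ B.erase w := by
      intro u hu
      rw [mem_nb] at hu
      rw [mem_erase]
      exact ⟨fun e => by subst e; exact G.loopless.irrefl _ hu.2, hu.1⟩
    rw [Finset.card_sdiff_of_subset h5, Finset.card_erase_of_mem hwB] at h4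
    have h6 := nb_card_lt G hwB
    have h7 : ((N.erase w).filter (fun w' => w' ∈ (N.erase w) \ nb G B w)).card
        + 1 + (nb G B w).card ≤ B.card := by omega
    have h8 : (((N.erase w).filter (fun w' => w' ∈ (N.erase w) \ nb G B w)).card : ℝ)
        + 1 + (nb G B w).card ≤ B.card := by exact_mod_cast h7
    linarith
  have hL : 0 < (n : ℝ) + 2 - K.card := by
    have : (0 : ℝ) ≤ (nb G B w).card := Nat.cast_nonneg _
    linarith
  have h9 : ((B.card : ℝ) - 1 - (nb G B w).card) / ((n : ℝ) + 2 - K.card - (nb G B w).card)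
      ≤ ((B.card : ℝ) - 1) / ((n : ℝ) + 2 - K.card) := by
    rw [div_le_div_iff₀ hLd hL]
    have : (0 : ℝ) ≤ (nb G B w).card := Nat.cast_nonneg _
    nlinarith
  calc (((N.erase w).filter (fun w' => w' ∈ (N.erase w) \ nb G B w)).card : ℝ)
        * (n1 / ((n : ℝ) + 2 - K.card - (nb G B w).card))
      ≤ ((B.card : ℝ) - 1 - (nb G B w).card)
        * (n1 / ((n : ℝ) + 2 - K.card - (nb G B w).card)) :=
        mul_le_mul_of_nonneg_right h2 (by positivity)
    _ = (((B.card : ℝ) - 1 - (nb G B w).card) / ((n : ℝ) + 2 - K.card - (nb G B w).card)) * n1 := by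
        ring
    _ ≤ _ := mul_le_mul_of_nonneg_right h9 hn1'

/-- lower bound for the slack sum -/
lemma theta_lower {K B : Finset V} (hd : Disjoint K B) (hK : clq G K) {x : V} (hx : x ∈ K) (n : ℕ)
    (hm : (B.card : ℝ) + K.card ≤ n + 2) :
    f G (K ∪ B) (n + 2) * ∑ w ∈ nb G B x,
        ((((n : ℝ) + 3 - K.card - (nb G B w).card) * (2 * ((n : ℝ) + 3 - K.card) - B.card + 1))
          / (2 * ((n : ℝ) + 3 - K.card) ^ 2
              * ((n : ℝ) + 3 - (nb G B w).card - (nb G K w).card)))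
      ≤ ((n : ℝ) + 2) * ∑ S ∈ (J G B).filter (fun S => ¬ av G x S),
          f G ((K.erase x ∪ B) \ S) (n + 1) := by
  have hd' : Disjoint (K.erase x) B := Finset.disjoint_of_subset_left (Finset.erase_subset _ _) hd
  have hK' := clq_erase G hK x
  have hKc : ((K.erase x).card : ℝ) = (K.card : ℝ) - 1 := by
    rw [Finset.card_erase_of_mem hx, Nat.cast_sub (Finset.card_pos.2 ⟨x, hx⟩)]; simp
  have hKpos : (1 : ℝ) ≤ K.card := by
    exact_mod_cast Finset.card_pos.2 ⟨x, hx⟩
  set H := K.erase x ∪ B with hH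
  have hb := bonf G B (nb G B x) (fun S => f G (H \ S) (n + 1)) (fun S => f_nonneg G _ _)
    (fun S => av G x S) (by
      intro S _ hP
      rw [Finset.card_eq_zero, Finset.eq_empty_iff_forall_notMem]
      intro a ha
      rw [mem_inter, mem_nb] at ha
      exact hP a ha.2 ha.1.2)
  have hnbB : nb G B x ⊆ B := by intro a ha; rw [mem_nb] at ha; exact ha.1
  set L : ℝ := (n : ℝ) + 3 - K.card with hL
  -- lower bound the sum
  have h1 : ∑ w ∈ nb G B x, (1 - ((B.card : ℝ) - 1) / (2 * L))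
        * ∑ S ∈ Jx G B w, f G (H \ S) (n + 1)
      ≤ ∑ S ∈ (J G B).filter (fun S => ¬ av G x S), f G (H \ S) (n + 1) := by
    refine le_trans ?_ hb
    have h2 : ∑ w ∈ nb G B x, ∑ w' ∈ (nb G B x).erase w,
          ∑ S ∈ (Jx G B w).filter (fun S => w' ∈ S), f G (H \ S) (n + 1)
        ≤ ∑ w ∈ nb G B x, (((B.card : ℝ) - 1) / L) * ∑ S ∈ Jx G B w, f G (H \ S) (n + 1) := by
      apply Finset.sum_le_sum
      intro w hw
      have h3 := pair_sum_le G hd' hK' n (by rw [hKc]; linarith) hnbB hw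
      rw [hKc] at h3
      have h4 : (n : ℝ) + 2 - ((K.card : ℝ) - 1) = L := by rw [hL]; ring
      rw [h4] at h3
      exact h3
    have h5 : ∑ w ∈ nb G B x, (1 - ((B.card : ℝ) - 1) / (2 * L))
          * ∑ S ∈ Jx G B w, f G (H \ S) (n + 1)
        = ∑ w ∈ nb G B x, ∑ S ∈ Jx G B w, f G (H \ S) (n + 1)
          - 1 / 2 * ∑ w ∈ nb G B x, (((B.card : ℝ) - 1) / L)
            * ∑ S ∈ Jx G B w, f G (H \ S) (n + 1) := by
      rw [mul_sum, ← sum_sub_distrib]
      apply Finset.sum_congr rfl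
      intro w _
      have : ((B.card : ℝ) - 1) / (2 * L) = 1 / 2 * (((B.card : ℝ) - 1) / L) := by
        rw [div_mul_div_comm, one_mul]
      rw [this]; ring
    rw [h5]
    linarith
  refine le_trans ?_ (mul_le_mul_of_nonneg_left h1 (show (0 : ℝ) ≤ (n : ℝ) + 2 by positivity))
  rw [mul_sum, mul_sum]
  apply Finset.sum_le_sum
  intro w hw
  have hwB := hnbB hw
  have hwx : G.Adj x w := by rw [mem_nb] at hw; exact hw.2
  have hdw : ((nb G B w).card : ℝ) + 1 ≤ B.card := by exact_mod_cast nb_card_lt G hwB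
  have hkw : ((nb G (K.erase x) w).card : ℝ) = (nb G K w).card - 1 := by
    have h2 : nb G (K.erase x) w = (nb G K w).erase x := by
      ext a
      rw [mem_nb, mem_erase, mem_erase, mem_nb]
      tauto
    have h3 : x ∈ nb G K w := by rw [mem_nb]; exact ⟨hx, hwx.symm⟩
    rw [h2, Finset.card_erase_of_mem h3, Nat.cast_sub (Finset.card_pos.2 ⟨x, h3⟩)]
    simp
  have hkK : ((nb G K w).card : ℝ) ≤ K.card := by
    have : nb G K w ⊆ K := by
      intro a ha; rw [mem_nb] at ha; exact ha.1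
    exact_mod_cast Finset.card_le_card this
  have hone := one_ge G hd' hK' hwB (n + 1) (by rw [hKc]; push_cast; linarith)
  have hfa := fA_le G hd hK hx (n + 1)
  rw [hKc, hkw] at hone
  push_cast at hone hfa
  set n1 := ∑ S ∈ Jx G B w, f G (H \ S) (n + 1) with hn1
  have hn1' : 0 ≤ n1 := Finset.sum_nonneg (fun S _ => f_nonneg G _ _)
  set d : ℝ := ((nb G B w).card : ℝ) with hdd
  set kk : ℝ := ((nb G K w).card : ℝ) with hkk
  have hd0 : 0 ≤ d := Nat.cast_nonneg _
  have hLd : 0 < L - d := by rw [hL]; linarith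
  have hLpos : 0 < L := by linarith
  have hMpos : 0 < (n : ℝ) + 3 - d - kk := by linarith
  have e1 : (n : ℝ) + 1 + 1 - ((K.card : ℝ) - 1) - d = L - d := by rw [hL]; ring
  have e2 : (n : ℝ) + 1 + 1 - d - (kk - 1) = (n : ℝ) + 3 - d - kk := by ring
  have e3 : (n : ℝ) + 1 + 2 - K.card = L := by rw [hL]; ring
  have e4 : (n : ℝ) + 1 + 1 = n + 2 := by ring
  rw [e1, e2, e4] at hone
  rw [e3] at hfa
  have hfA0 := f_nonneg G (K ∪ B) (n + 2)
  have hfH0 := f_nonneg G H (n + 2)
  -- (L-d) fA ≤ L (n+2) n1 (n+3-d-k)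
  have s1 : (L - d) * f G (K ∪ B) (n + 2) ≤ L * ((((n : ℝ) + 2) * n1) * ((n : ℝ) + 3 - d - kk)) := by
    calc (L - d) * f G (K ∪ B) (n + 2) ≤ (L - d) * (L * f G H (n + 2)) :=
          mul_le_mul_of_nonneg_left hfa hLd.le
      _ = L * ((L - d) * f G H (n + 2)) := by ring
      _ ≤ _ := mul_le_mul_of_nonneg_left hone hLpos.le
  have h2L : 0 ≤ 2 * L - B.card + 1 := by
    have : (B.card : ℝ) ≤ L := by rw [hL]; linarith
    linarith
  have e5 : (1 - ((B.card : ℝ) - 1) / (2 * L)) = (2 * L - B.card + 1) / (2 * L) := by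
    field_simp
    ring
  rw [e5]
  have e6 : f G (K ∪ B) (n + 2) * ((L - d) * (2 * L - (B.card : ℝ) + 1)
      / (2 * L ^ 2 * ((n : ℝ) + 3 - d - kk)))
      = ((L - d) * f G (K ∪ B) (n + 2))
        * ((2 * L - (B.card : ℝ) + 1) / (2 * L ^ 2 * ((n : ℝ) + 3 - d - kk))) := by ring
  rw [e6]
  refine (mul_le_mul_of_nonneg_right s1 (by positivity)).trans (le_of_eq ?_)
  field_simp

/-- upper bound for the negative part -/
lemma gamma_le {K B : Finset V} (n : ℕ) (s : ℝ) (hs : 0 ≤ s)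
    (hm : (B.card : ℝ) + K.card ≤ n + 1) :
    ((n : ℝ) + 1) * ∑ T ∈ J G B, ((1 + s) ^ T.card - 1) * f G ((K ∪ B) \ T) n
      ≤ f G (K ∪ B) (n + 1) * ∑ i ∈ range B.card, (B.card.choose (i + 1) : ℝ)
          * (s ^ (i + 1) * ((((n : ℝ) + 1 - K.card))⁻¹) ^ i) := by
  set M0 : ℝ := (n : ℝ) + 1 - K.card with hM0
  have hg := gen G (B0 := B) (R := B) (Y := K ∪ B) (Finset.Subset.refl _) subset_union_right n s hs
    (fun u => M0 - (nb G B u).card) (by
      intro w hw
      have hdw : ((nb G B w).card : ℝ) + 1 ≤ B.card := by exact_mod_cast nb_card_lt G hw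
      rw [hM0]
      linarith) (by
      intro w hw
      have h1 : nb G (K ∪ B) w ⊆ K ∪ nb G B w := by
        intro a ha
        rw [mem_nb, mem_union] at ha
        rw [mem_union, mem_nb]
        rcases ha with ⟨h | h, h'⟩
        · exact Or.inl h
        · exact Or.inr ⟨h, h'⟩
      have h2 : (nb G (K ∪ B) w).card ≤ K.card + (nb G B w).card :=
        (Finset.card_le_card h1).trans (Finset.card_union_le _ _)
      have h3 : ((nb G (K ∪ B) w).card : ℝ) ≤ K.card + (nb G B w).card := by exact_mod_cast h2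
      show M0 - ((nb G B w).card : ℝ) ≤ (n : ℝ) + 1 - (nb G (K ∪ B) w).card
      rw [hM0]
      linarith)
  have h1 : ∑ T ∈ J G B, ((1 + s) ^ T.card - 1) * f G ((K ∪ B) \ T) n
      = ∑ T ∈ J G B, ((1 + s) ^ (T ∩ B).card - 1) * f G ((K ∪ B) \ T) n := by
    apply Finset.sum_congr rfl
    intro T hT
    rw [mem_J] at hT
    rw [Finset.inter_eq_left.2 hT.1]
  rw [h1]
  refine hg.trans ?_
  apply mul_le_mul_of_nonneg_left _ (f_nonneg G _ _)
  -- compare coefficients
  have h2 : ∀ u ∈ B, ∑ i ∈ range B.card, ((B.card - 1 - (nb G B u).card).choose i : ℝ)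
        * (s ^ (i + 1) / ((i : ℝ) + 1) * ((M0 - ((nb G B u).card : ℝ))⁻¹) ^ i)
      ≤ ∑ i ∈ range B.card, ((B.card - 1).choose i : ℝ)
        * (s ^ (i + 1) / ((i : ℝ) + 1) * (M0⁻¹) ^ i) := by
    intro u hu
    have hdu := nb_card_lt G hu
    have hdu' : ((nb G B u).card : ℝ) + 1 ≤ B.card := by exact_mod_cast hdu
    have hK0 : (0 : ℝ) ≤ K.card := Nat.cast_nonneg _
    apply Finset.sum_le_sum
    intro i _
    have h3 := coef (B.card - 1) (nb G B u).card 0 (by omega) M0 (M0 - (nb G B u).card)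
      (by push_cast; ring) (by rw [hM0]; linarith)
      (by
        rw [Nat.cast_sub (by omega), Nat.cast_sub (by omega)]
        rw [hM0]; push_cast; linarith)
      (by
        rw [Nat.cast_sub (by omega)]
        rw [hM0]; push_cast; linarith) i
    simp only [Nat.cast_zero, zero_mul, zero_div, add_zero] at h3
    have h4 : 0 ≤ s ^ (i + 1) / ((i : ℝ) + 1) := by positivity
    have h5 := mul_le_mul_of_nonneg_left h3 h4
    linarith
  refine (Finset.sum_le_sum h2).trans ?_
  rw [sum_const, nsmul_eq_mul, mul_sum]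
  apply le_of_eq
  apply Finset.sum_congr rfl
  intro i hi
  rw [mem_range] at hi
  obtain ⟨p, hp⟩ : ∃ p, B.card = p + 1 := ⟨B.card - 1, by omega⟩
  rw [hp, Nat.add_sub_cancel]
  have h6 := Nat.add_one_mul_choose_eq p i
  have h7 : ((p : ℝ) + 1) * (p.choose i : ℝ) = ((p + 1).choose (i + 1) : ℝ) * ((i : ℝ) + 1) := by
    exact_mod_cast h6
  push_cast
  have hi1 : (i : ℝ) + 1 ≠ 0 := by positivity
  field_simp
  linear_combination (s ^ (i + 1) * (M0⁻¹) ^ i) * h7

end

end Pool.Agent.R54.CR
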