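import Mathlib
import Pool.Agent.R54.CR.Theta

set_option autoImplicit false

open Finset

namespace Pool.Agent.R54.CR

noncomputable section

open Classical
open Pool.Agent.H331R2.ChromLC

variable {V : Type*} [Fintype V] (G : SimpleGraph V)

lemma sum_Jx_clique {K B : Finset V} (hd : Disjoint K B) (hK : clq G K) {x : V} (hx : x ∈ K)
    (g : Finset V → ℝ) :
    ∑ S ∈ Jx G (K ∪ B) x, g S = ∑ T ∈ (J G B).filter (fun T => av G x T), g (insert x T) := by
  rw [sum_Jx_erase G (mem_union_left B hx)]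
  apply Finset.sum_congr _ (fun _ _ => rfl)
  ext T
  rw [mem_filter, mem_filter, mem_J, mem_J]
  constructor
  · rintro ⟨⟨a1, a2⟩, a3⟩
    refine ⟨⟨fun y hy => ?_, a2⟩, a3⟩
    have h := a1 hy
    rw [mem_erase, mem_union] at h
    refine h.2.resolve_left (fun h' => a3 y hy (hK x hx y h' (fun e => h.1 e.symm)))
  · rintro ⟨⟨a1, a2⟩, a3⟩
    refine ⟨⟨fun y hy => ?_, a2⟩, a3⟩
    rw [mem_erase, mem_union]
    refine ⟨fun e => ?_, Or.inr (a1 hy)⟩
    subst e
    exact Finset.disjoint_left.1 hd hx (a1 hy)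

omit [Fintype V] in
lemma sdiff_insert_clique {K B T : Finset V} {x : V} (hd : Disjoint K B) (hx : x ∈ K)
    (hT : T ⊆ B) : (K ∪ B) \ insert x T = (K.erase x ∪ B) \ T := by
  ext a
  simp only [mem_sdiff, mem_union, mem_insert, mem_erase]
  constructor
  · rintro ⟨h, h'⟩
    push Not at h'
    refine ⟨?_, h'.2⟩
    rcases h with h | h
    · exact Or.inl ⟨h'.1, h⟩
    · exact Or.inr h
  · rintro ⟨h, h'⟩
    rcases h with ⟨h1, h2⟩ | h
    · exact ⟨Or.inl h2, fun h3 => h3.elim h1 h'⟩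
    · refine ⟨Or.inr h, fun h3 => h3.elim (fun e => ?_) h'⟩
      subst e
      exact Finset.disjoint_left.1 hd hx h

/-- the sum `Z_x` -/
def Z (K B : Finset V) (x : V) (n : ℕ) : ℝ :=
  ∑ T ∈ (J G B).filter (fun T => av G x T),
    ((1 + 1 / (n : ℝ)) ^ T.card - 1) * f G ((K.erase x ∪ B) \ T) (n + 1)

/-- the sum `O` -/
def O (K B : Finset V) (n : ℕ) : ℝ :=
  ∑ T ∈ J G B, ((1 + 1 / (n : ℝ)) ^ T.card - 1) * f G ((K ∪ B) \ T) (n + 1)

/-- the slack coefficient -/
def del (n m w : ℕ) : ℝ :=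
  ((n : ℝ) + 2 - w) * (1 / (n : ℝ))
    - ∑ i ∈ range (m - 1), ((m - 1).choose (i + 1) : ℝ)
        * ((1 / (n : ℝ)) ^ (i + 1) * (((n : ℝ) + 2 - w)⁻¹) ^ i)

lemma sigma_lower {K B : Finset V} (hd : Disjoint K B) (hK : clq G K) {x : V} (hx : x ∈ K)
    (n : ℕ) (hm : (B.card : ℝ) + K.card ≤ n + 2) :
    del n B.card K.card * ∑ S ∈ (J G B).filter (fun S => ¬ av G x S),
        f G ((K.erase x ∪ B) \ S) (n + 1)
      ≤ O G K B n - ((n : ℝ) + 2 - K.card) * Z G K B x n := by
  have hd' : Disjoint (K.erase x) B := Finset.disjoint_of_subset_left (Finset.erase_subset _ _) hd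
  have hK' := clq_erase G hK x
  have hKc : ((K.erase x).card : ℝ) = (K.card : ℝ) - 1 := by
    rw [Finset.card_erase_of_mem hx, Nat.cast_sub (Finset.card_pos.2 ⟨x, hx⟩)]; simp
  set H := K.erase x ∪ B with hH
  set s : ℝ := 1 / (n : ℝ) with hs
  have hs0 : 0 ≤ s := by positivity
  set M0 : ℝ := (n : ℝ) + 2 - K.card with hM0
  have hI : ∀ T ∈ J G B, f G ((K ∪ B) \ T) (n + 1)
      = M0 * f G (H \ T) (n + 1)
        - ((n : ℝ) + 1) * ∑ S ∈ (J G (B \ T)).filter (fun S => ¬ av G x S), f G ((H \ T) \ S) n := by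
    intro T hT
    rw [mem_J] at hT
    have hd'' : Disjoint (K.erase x) (B \ T) :=
      Finset.disjoint_of_subset_right Finset.sdiff_subset hd'
    have h1 := I1' G (x := x) hd'' hK' (Finset.notMem_erase x K)
      (fun h => Finset.disjoint_left.1 hd hx (mem_sdiff.1 h).1)
      (fun y hy => hK x hx y (Finset.mem_of_mem_erase hy) (fun e => by
        subst e; exact Finset.notMem_erase _ _ hy)) n
    rw [insert_erase_union hx, ← union_sdiff_right hd hT.1, ← union_sdiff_right hd' hT.1, hKc] at h1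
    rw [h1, hM0]
    ring
  have hO : O G K B n = ∑ T ∈ J G B, ((1 + s) ^ T.card - 1) * (M0 * f G (H \ T) (n + 1))
      - ∑ T ∈ J G B, ∑ S ∈ (J G (B \ T)).filter (fun S => ¬ av G x S),
          ((n : ℝ) + 1) * (((1 + s) ^ T.card - 1) * f G ((H \ T) \ S) n) := by
    unfold O
    rw [← sum_sub_distrib]
    apply Finset.sum_congr rfl
    intro T hT
    rw [hI T hT, mul_sub, mul_sum, mul_sum]
    congr 1
    apply Finset.sum_congr rfl
    intro S _
    ring
  have hcomm : ∀ S T : Finset V, (H \ T) \ S = (H \ S) \ T := by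
    intro S T
    ext a; simp only [mem_sdiff]; tauto
  have hswap : ∑ T ∈ J G B, ∑ S ∈ (J G (B \ T)).filter (fun S => ¬ av G x S),
          ((n : ℝ) + 1) * (((1 + s) ^ T.card - 1) * f G ((H \ T) \ S) n)
      = ∑ S ∈ (J G B).filter (fun S => ¬ av G x S), ∑ T ∈ J G (B \ S),
          ((n : ℝ) + 1) * (((1 + s) ^ T.card - 1) * f G ((H \ S) \ T) n) := by
    refine (Finset.sum_comm' (t' := (J G B).filter (fun S => ¬ av G x S))
        (s' := fun S => J G (B \ S)) ?_).trans
        (Finset.sum_congr rfl (fun S _ => Finset.sum_congr rfl (fun T _ => by rw [hcomm])))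
    intro T S
    simp only [mem_filter, mem_J]
    constructor
    · rintro ⟨⟨a1, a2⟩, ⟨⟨b1, b2⟩, b3⟩⟩
      refine ⟨⟨fun y hy => ?_, a2⟩, ⟨⟨fun y hy => (mem_sdiff.1 (b1 hy)).1, b2⟩, b3⟩⟩
      rw [mem_sdiff]
      exact ⟨a1 hy, fun h => (mem_sdiff.1 (b1 h)).2 hy⟩
    · rintro ⟨⟨a1, a2⟩, ⟨⟨b1, b2⟩, b3⟩⟩
      refine ⟨⟨fun y hy => (mem_sdiff.1 (a1 hy)).1, a2⟩, ⟨⟨fun y hy => ?_, b2⟩, b3⟩⟩
      rw [mem_sdiff]
      exact ⟨b1 hy, fun h => (mem_sdiff.1 (a1 h)).2 hy⟩
  have hsplit : ∑ T ∈ J G B, ((1 + s) ^ T.card - 1) * (M0 * f G (H \ T) (n + 1))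
      = M0 * Z G K B x n
        + ∑ S ∈ (J G B).filter (fun S => ¬ av G x S),
            ((1 + s) ^ S.card - 1) * (M0 * f G (H \ S) (n + 1)) := by
    rw [← Finset.sum_filter_add_sum_filter_not (J G B) (fun T => av G x T)]
    congr 1
    unfold Z
    rw [mul_sum]
    apply Finset.sum_congr rfl
    intro T _
    rw [← hs, ← hH]
    ring
  rw [hO, hswap, hsplit]
  have hgoal : ∑ S ∈ (J G B).filter (fun S => ¬ av G x S), del n B.card K.card * f G (H \ S) (n + 1)
      ≤ ∑ S ∈ (J G B).filter (fun S => ¬ av G x S),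
          (((1 + s) ^ S.card - 1) * (M0 * f G (H \ S) (n + 1))
          - ∑ T ∈ J G (B \ S), ((n : ℝ) + 1) * (((1 + s) ^ T.card - 1) * f G ((H \ S) \ T) n)) := by
    apply Finset.sum_le_sum
    intro S hS
    rw [mem_filter, mem_J] at hS
    obtain ⟨⟨hSB, hSi⟩, hSav⟩ := hS
    have hSne : S.Nonempty := by
      rw [Finset.nonempty_iff_ne_empty]
      rintro rfl
      exact hSav (fun t ht => absurd ht (Finset.notMem_empty t))
    have hSc : 1 ≤ S.card := Finset.card_pos.2 hSne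
    have hScB : S.card ≤ B.card := Finset.card_le_card hSB
    have hBS : (B \ S).card ≤ B.card - 1 := by
      rw [Finset.card_sdiff_of_subset hSB]; omega
    have hBS' : ((B \ S).card : ℝ) ≤ (B.card : ℝ) - 1 := by
      have h1 : ((B \ S).card : ℝ) ≤ ((B.card - 1 : ℕ) : ℝ) := by exact_mod_cast hBS
      rw [Nat.cast_sub (by omega)] at h1
      simpa using h1
    have hM0pos : 0 < M0 := by
      have : (1 : ℝ) ≤ B.card := by exact_mod_cast hSc.trans hScB
      rw [hM0]; linarith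
    have hgam := gamma_le G (K := K.erase x) (B := B \ S) n s hs0 (by rw [hKc]; linarith)
    rw [← union_sdiff_right hd' hSB, hKc] at hgam
    have e1 : (n : ℝ) + 1 - ((K.card : ℝ) - 1) = M0 := by rw [hM0]; ring
    rw [e1] at hgam
    have hmono : ∑ i ∈ range (B \ S).card, ((B \ S).card.choose (i + 1) : ℝ)
          * (s ^ (i + 1) * (M0⁻¹) ^ i)
        ≤ ∑ i ∈ range (B.card - 1), ((B.card - 1).choose (i + 1) : ℝ)
          * (s ^ (i + 1) * (M0⁻¹) ^ i) := by
      have hMi : 0 < M0⁻¹ := inv_pos.2 hM0pos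
      calc ∑ i ∈ range (B \ S).card, ((B \ S).card.choose (i + 1) : ℝ)
          * (s ^ (i + 1) * (M0⁻¹) ^ i)
          ≤ ∑ i ∈ range (B \ S).card, ((B.card - 1).choose (i + 1) : ℝ)
          * (s ^ (i + 1) * (M0⁻¹) ^ i) := by
            apply Finset.sum_le_sum
            intro i _
            apply mul_le_mul_of_nonneg_right _ (by positivity)
            exact_mod_cast Nat.choose_le_choose (i + 1) hBS
        _ ≤ _ := by
            apply Finset.sum_le_sum_of_subset_of_nonneg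
            · exact Finset.range_subset_range.2 hBS
            · intro i _ _
              positivity
    have hfn := f_nonneg G (H \ S) (n + 1)
    have h2 : ∑ T ∈ J G (B \ S), ((n : ℝ) + 1) * (((1 + s) ^ T.card - 1) * f G ((H \ S) \ T) n)
        ≤ f G (H \ S) (n + 1) * ∑ i ∈ range (B.card - 1), ((B.card - 1).choose (i + 1) : ℝ)
          * (s ^ (i + 1) * (M0⁻¹) ^ i) := by
      rw [← mul_sum]
      exact hgam.trans (mul_le_mul_of_nonneg_left hmono hfn)
    have h3 : s ≤ (1 + s) ^ S.card - 1 := by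
      have : (1 + s) ^ 1 ≤ (1 + s) ^ S.card := pow_le_pow_right₀ (by linarith) hSc
      rw [pow_one] at this
      linarith
    have h4 := mul_le_mul_of_nonneg_right h3 (mul_nonneg hM0pos.le hfn)
    unfold del
    rw [← hs, ← hM0, sub_mul]
    linarith
  rw [mul_sum]
  rw [sum_sub_distrib] at hgoal
  linarith

end

end Pool.Agent.R54.CR
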