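import Mathlib
import Pool.Agent.R54.CR.Sigma

set_option autoImplicit false

open Finset

namespace Pool.Agent.R54.CR

noncomputable section

open Classical
open Pool.Agent.H331R2.ChromLC

variable {V : Type*} [Fintype V] (G : SimpleGraph V)

lemma total_eq {K B : Finset V} (hd : Disjoint K B) (hK : clq G K) (n : ℕ) :
    ∑ S ∈ J G (K ∪ B), ((1 + 1 / (n : ℝ)) ^ (S ∩ B).card - 1) * f G ((K ∪ B) \ S) (n + 1)
      = O G K B n + ∑ x ∈ K, Z G K B x n := by
  rw [sum_split G hd hK]
  congr 1
  · unfold O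
    apply Finset.sum_congr rfl
    intro T hT
    rw [mem_J] at hT
    rw [Finset.inter_eq_left.2 hT.1]
  · apply Finset.sum_congr rfl
    intro x hx
    rw [sum_Jx_clique G hd hK hx]
    unfold Z
    apply Finset.sum_congr rfl
    intro T hT
    rw [mem_filter, mem_J] at hT
    rw [sdiff_insert_clique hd hx hT.1.1]
    congr 3
    have : insert x T ∩ B = T := by
      rw [Finset.insert_inter_of_notMem (fun h => Finset.disjoint_left.1 hd hx h),
        Finset.inter_eq_left.2 hT.1.1]
    rw [this]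

/-- the main sum inequality -/
lemma bigM {K B : Finset V} (hd : Disjoint K B) (hK : clq G K) (hKne : K.Nonempty)
    (n : ℕ) (hn : 1 ≤ n) (hm : B.card + K.card ≤ n + 2) :
    ((n : ℝ) + 2) * ∑ x ∈ K, Z G K B x n
      ≤ K.card * f G (K ∪ B) (n + 2) * ((1 + 1 / (n : ℝ) / ((n : ℝ) + 2)) ^ B.card - 1) := by
  rcases B.eq_empty_or_nonempty with rfl | hBne
  · have : ∀ x ∈ K, Z G K ∅ x n = 0 := by
      intro x _
      unfold Z
      apply Finset.sum_eq_zero
      intro T hT
      rw [mem_filter, mem_J, Finset.subset_empty] at hT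
      rw [hT.1.1]; simp
    rw [Finset.sum_eq_zero this]; simp
  have hmR : (B.card : ℝ) + K.card ≤ n + 2 := by exact_mod_cast hm
  have hBc : 1 ≤ B.card := Finset.card_pos.2 hBne
  have hBcR : (1 : ℝ) ≤ B.card := by exact_mod_cast hBc
  have hKc : 1 ≤ K.card := Finset.card_pos.2 hKne
  have hKcR : (1 : ℝ) ≤ K.card := by exact_mod_cast hKc
  have hnR : (1 : ℝ) ≤ n := by exact_mod_cast hn
  set s : ℝ := 1 / (n : ℝ) with hs
  have hs0 : 0 < s := by positivity
  set lam : ℝ := (n : ℝ) + 2 with hlam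
  have hlam0 : 0 < lam := by positivity
  set FA := f G (K ∪ B) (n + 2) with hFA
  have hFA0 : 0 ≤ FA := f_nonneg G _ _
  have hnbK : ∀ w, (nb G K w).card ≤ K.card := fun w => Finset.card_le_card (by
    intro a ha; rw [mem_nb] at ha; exact ha.1)
  -- upper bound for the total
  have hgen := gen G (B0 := B) (R := K ∪ B) (Y := K ∪ B) subset_union_right
    (Finset.Subset.refl _) (n + 1) s hs0.le
    (fun u => lam - (nb G B u).card - (nb G K u).card) (by
      intro w hw
      have hdw : ((nb G B w).card : ℝ) + 1 ≤ B.card := by exact_mod_cast nb_card_lt G hw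
      have hkw : ((nb G K w).card : ℝ) ≤ K.card := by exact_mod_cast hnbK w
      linarith) (by
      intro w hw
      have h1 : nb G (K ∪ B) w = nb G K w ∪ nb G B w := by
        ext a
        rw [mem_nb, mem_union, mem_union, mem_nb, mem_nb]
        tauto
      have h2 : (nb G (K ∪ B) w).card ≤ (nb G K w).card + (nb G B w).card := by
        rw [h1]; exact Finset.card_union_le _ _
      have h3 : ((nb G (K ∪ B) w).card : ℝ) ≤ (nb G K w).card + (nb G B w).card := by
        exact_mod_cast h2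
      show lam - ((nb G B w).card : ℝ) - ((nb G K w).card : ℝ)
        ≤ ((n + 1 : ℕ) : ℝ) + 1 - (nb G (K ∪ B) w).card
      push_cast
      linarith)
  rw [total_eq G hd hK n] at hgen
  -- scalar notation
  set II : V → ℝ := fun u => ∑ i ∈ range B.card,
    ((B.card - 1 - (nb G B u).card).choose i : ℝ)
      * (s ^ (i + 1) / ((i : ℝ) + 1) * ((lam - (nb G B u).card - (nb G K u).card)⁻¹) ^ i) with hII
  set JJ : ℝ := ∑ i ∈ range B.card, ((B.card - 1).choose i : ℝ)
      * (s ^ (i + 1) / ((i : ℝ) + 1) * (lam⁻¹) ^ i) with hJJ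
  set cc : V → ℝ := fun w =>
    ((((n : ℝ) + 3 - K.card - (nb G B w).card) * (2 * ((n : ℝ) + 3 - K.card) - B.card + 1))
      / (2 * ((n : ℝ) + 3 - K.card) ^ 2
          * ((n : ℝ) + 3 - (nb G B w).card - (nb G K w).card))) with hcc
  set δ := del n B.card K.card with hδ
  set Sz := ∑ x ∈ K, Z G K B x n with hSz
  set OO := O G K B n with hOO
  have hgen' : lam * (OO + Sz) ≤ FA * ∑ u ∈ B, II u := by
    have e1 : ((n + 1 : ℕ) : ℝ) + 1 = lam := by rw [hlam]; push_cast; ring
    rw [e1] at hgen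
    exact hgen
  -- delta bound
  have hdel : s / 2 * ((n : ℝ) + 3 - K.card - B.card) ≤ δ := by
    have h1 := delta_bound n (B.card - 1) hn ((n : ℝ) + 2 - K.card)
      (by rw [Nat.cast_sub hBc]; push_cast; linarith) (by linarith)
    rw [Nat.cast_sub hBc] at h1
    push_cast at h1
    rw [hδ]
    unfold del
    have e : ((n : ℝ) + 2 - K.card - ((B.card : ℝ) - 1)) = (n : ℝ) + 3 - K.card - B.card := by ring
    rw [e] at h1
    exact h1
  have hδ0 : 0 ≤ δ := le_trans (mul_nonneg (by positivity) (by linarith)) hdel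
  -- sum over the clique of the slack inequalities
  have hcl : ∀ x ∈ K, δ * (FA * ∑ w ∈ nb G B x, cc w)
      ≤ lam * (OO - ((n : ℝ) + 2 - K.card) * Z G K B x n) := by
    intro x hx
    have h1 := sigma_lower G hd hK hx n hmR
    have h2 := theta_lower G hd hK hx n hmR
    calc δ * (FA * ∑ w ∈ nb G B x, cc w)
        ≤ δ * (lam * ∑ S ∈ (J G B).filter (fun S => ¬ av G x S),
          f G ((K.erase x ∪ B) \ S) (n + 1)) := mul_le_mul_of_nonneg_left h2 hδ0
      _ = lam * (δ * ∑ S ∈ (J G B).filter (fun S => ¬ av G x S),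
          f G ((K.erase x ∪ B) \ S) (n + 1)) := by ring
      _ ≤ _ := mul_le_mul_of_nonneg_left h1 hlam0.le
  have hsum := Finset.sum_le_sum hcl
  have hdc : ∑ x ∈ K, ∑ w ∈ nb G B x, cc w = ∑ w ∈ B, ((nb G K w).card : ℝ) * cc w := by
    have h1 : ∑ x ∈ K, ∑ w ∈ nb G B x, cc w = ∑ w ∈ B, ∑ x ∈ nb G K w, cc w := by
      apply Finset.sum_comm'
      intro x w
      rw [mem_nb, mem_nb]
      constructor
      · rintro ⟨h1, h2, h3⟩; exact ⟨⟨h1, h3.symm⟩, h2⟩
      · rintro ⟨⟨h1, h3⟩, h2⟩; exact ⟨h1, h2, h3.symm⟩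
    rw [h1]
    apply Finset.sum_congr rfl
    intro w _
    rw [sum_const, nsmul_eq_mul]
  have hL1 : ∑ x ∈ K, δ * (FA * ∑ w ∈ nb G B x, cc w)
      = FA * ∑ w ∈ B, δ * (((nb G K w).card : ℝ) * cc w) := by
    rw [← mul_sum, ← mul_sum, hdc, ← mul_sum]
    ring
  have hR1 : ∑ x ∈ K, lam * (OO - ((n : ℝ) + 2 - K.card) * Z G K B x n)
      = lam * (K.card * OO - ((n : ℝ) + 2 - K.card) * Sz) := by
    rw [← mul_sum, sum_sub_distrib, sum_const, nsmul_eq_mul, ← mul_sum]
  rw [hL1, hR1] at hsum
  -- pointwise scalar inequality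
  have hpt : ∀ w ∈ B, (K.card : ℝ) * II w - δ * (((nb G K w).card : ℝ) * cc w)
      ≤ (K.card : ℝ) * JJ := by
    intro w hw
    have hd1 := nb_card_lt G hw
    have hd1R : ((nb G B w).card : ℝ) + 1 ≤ B.card := by exact_mod_cast hd1
    have hk1 := hnbK w
    have hk1R : ((nb G K w).card : ℝ) ≤ K.card := by exact_mod_cast hk1
    have h1 := I_sub_J n B.card (nb G B w).card (nb G K w).card hn (by omega) lam
      (lam - (nb G B w).card - (nb G K w).card) rfl (by linarith)
      (by
        rw [Nat.cast_sub (by omega), Nat.cast_sub (by omega)]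
        push_cast; linarith)
      (by rw [Nat.cast_sub (by omega)]; push_cast; linarith)
      (by omega)
    have h2 := final_ineq n B.card (nb G B w).card (nb G K w).card K.card hn hBc (by omega) hk1 hKc
      hm
    have hcc0 : 0 ≤ ((nb G K w).card : ℝ) * cc w := by
      apply mul_nonneg (Nat.cast_nonneg _)
      apply div_nonneg
      · apply mul_nonneg <;> linarith
      · apply mul_nonneg
        · positivity
        · linarith
    have h3 : s / 2 * ((n : ℝ) + 3 - K.card - B.card) * (((nb G K w).card : ℝ) * cc w)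
        ≤ δ * (((nb G K w).card : ℝ) * cc w) := mul_le_mul_of_nonneg_right hdel hcc0
    have h4 := mul_le_mul_of_nonneg_left h1 (show (0 : ℝ) ≤ K.card by positivity)
    have h5 : (K.card : ℝ) * (II w - JJ) ≤ δ * (((nb G K w).card : ℝ) * cc w) := by
      refine h4.trans (le_trans (le_of_eq ?_) (h2.trans h3))
      rfl
    linarith
  have hpts := Finset.sum_le_sum hpt
  rw [sum_sub_distrib, sum_const, nsmul_eq_mul] at hpts
  have hJe := J_eval B.card hBc s lam hlam0
  -- final assembly
  have h6 : lam * (lam * Sz) ≤ lam * (K.card * FA * ((1 + s / lam) ^ B.card - 1)) := by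
    have h7 := mul_le_mul_of_nonneg_left hgen' (show (0 : ℝ) ≤ K.card by positivity)
    have h8 : ∑ w ∈ B, (K.card : ℝ) * II w = K.card * ∑ w ∈ B, II w := by rw [mul_sum]
    have h9 := mul_le_mul_of_nonneg_left hpts hFA0
    rw [h8] at h9
    have h10 : FA * (B.card * (K.card * JJ)) = lam * (K.card * FA * ((1 + s / lam) ^ B.card - 1)) := by
      have : (B.card : ℝ) * JJ = lam * ((1 + s / lam) ^ B.card - 1) := hJe
      linear_combination (FA * K.card) * this
    rw [← h10]
    have e : lam * (lam * Sz)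
        = K.card * (lam * (OO + Sz)) - lam * (K.card * OO - ((n : ℝ) + 2 - K.card) * Sz) := by
      rw [hlam]; ring
    rw [e]
    linarith
  exact le_of_mul_le_mul_left h6 hlam0

/-- the ratio inequality at level `n` -/
def P (n : ℕ) : Prop := ∀ A K : Finset V, K ⊆ A → clq G K → A.card ≤ n + 1 →
  f G A n ≤ f G A (n + 1) * (1 - (K.card : ℝ) / ((n : ℝ) + 1))
    * (1 - 1 / ((n : ℝ) + 1)) ^ (A.card - K.card)

/-- reduction to nonempty cliques -/
lemma P_of_nonempty (n : ℕ) (h : ∀ A K : Finset V, K ⊆ A → clq G K → A.card ≤ n + 1 →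
    K.Nonempty → f G A n ≤ f G A (n + 1) * (1 - (K.card : ℝ) / ((n : ℝ) + 1))
    * (1 - 1 / ((n : ℝ) + 1)) ^ (A.card - K.card)) : P G n := by
  intro A K hKA hK hA
  rcases K.eq_empty_or_nonempty with rfl | hKne
  · rcases A.eq_empty_or_nonempty with rfl | hAne
    · rw [f_empty, f_empty]; simp
    · obtain ⟨x, hx⟩ := hAne
      have h1 := h A {x} (by simpa using hx) (by
        intro a ha b hb hab
        rw [mem_singleton] at ha hb
        exact absurd (ha.trans hb.symm) hab) hA (Finset.singleton_nonempty x)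
      rw [Finset.card_singleton] at h1
      rw [Finset.card_empty, Nat.sub_zero]
      obtain ⟨p, hp⟩ : ∃ p, A.card = p + 1 := by
        have : 0 < A.card := Finset.card_pos.2 ⟨x, hx⟩
        exact ⟨A.card - 1, by omega⟩
      rw [hp] at h1 ⊢
      rw [Nat.add_sub_cancel] at h1
      rw [pow_succ]
      refine h1.trans (le_of_eq ?_)
      push_cast
      ring
  · exact h A K hKA hK hA hKne

lemma P_zero : P G 0 := by
  apply P_of_nonempty
  intro A K hKA hK hA hKne
  rw [f_zero G (hKne.mono hKA)]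
  have h1 : K.card ≤ 1 := (Finset.card_le_card hKA).trans hA
  have h2 : (K.card : ℝ) ≤ 1 := by exact_mod_cast h1
  have h3 := f_nonneg G A (0 + 1)
  push_cast
  apply mul_nonneg (mul_nonneg h3 (by norm_num; exact_mod_cast h1))
  apply pow_nonneg
  norm_num

lemma f_one_le (A : Finset V) : f G A 1 ≤ 1 := by
  unfold f
  have : (C G A 1).card ≤ 1 := by
    rw [Finset.card_le_one]
    intro g hg h hh
    rw [mem_C] at hg hh
    funext a
    by_cases ha : a ∈ A
    · have h1 := (hg.2.1 a).2 ha
      have h2 := (hh.2.1 a).2 ha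
      have h3 := hg.1 a
      have h4 := hh.1 a
      omega
    · have h1 : g a = 0 := by
        by_contra h; exact ha ((hg.2.1 a).1 h)
      have h2 : h a = 0 := by
        by_contra h'; exact ha ((hh.2.1 a).1 h')
      rw [h1, h2]
  exact_mod_cast this

lemma f_one_edge {A : Finset V} {a b : V} (ha : a ∈ A) (hb : b ∈ A) (hab : G.Adj a b) :
    f G A 1 = 0 := by
  unfold f
  have : (C G A 1).card = 0 := by
    rw [Finset.card_eq_zero, Finset.eq_empty_iff_forall_notMem]
    intro g hg
    rw [mem_C] at hg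
    have h1 := (hg.2.1 a).2 ha
    have h2 := (hg.2.1 b).2 hb
    have h3 := hg.1 a
    have h4 := hg.1 b
    have h5 := hg.2.2 a b hab h1
    omega
  rw [this]; simp

lemma f_edgeless_ge (k : ℕ) (A : Finset V) (h : ∀ a ∈ A, ∀ b ∈ A, ¬ G.Adj a b) :
    (k : ℝ) ^ A.card ≤ f G A k := by
  induction hn : A.card using Nat.strong_induction_on generalizing A with
  | _ n ih =>
    rcases A.eq_empty_or_nonempty with rfl | ⟨x, hx⟩
    · rw [f_empty]; rw [Finset.card_empty] at hn; rw [← hn]; simp
    · have h1 := greedy G hx k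
      have h2 : nb G A x = ∅ := by
        rw [Finset.eq_empty_iff_forall_notMem]
        intro a ha
        rw [mem_nb] at ha
        exact h x hx a ha.1 ha.2
      rw [h2, Finset.card_empty] at h1
      have h3 : (A.erase x).card = n - 1 := by rw [Finset.card_erase_of_mem hx, hn]
      have hpos : 0 < n := by rw [← hn]; exact Finset.card_pos.2 ⟨x, hx⟩
      have h4 := ih (n - 1) (by omega) (A.erase x)
        (fun a ha b hb => h a (Finset.mem_of_mem_erase ha) b (Finset.mem_of_mem_erase hb)) h3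
      obtain ⟨p, rfl⟩ : ∃ p, n = p + 1 := ⟨n - 1, by omega⟩
      rw [Nat.add_sub_cancel] at h4
      rw [pow_succ]
      have h5 := mul_le_mul_of_nonneg_left h4 (show (0 : ℝ) ≤ k by positivity)
      push_cast at h1
      linarith

lemma P_one : P G 1 := by
  apply P_of_nonempty
  intro A K hKA hK hA hKne
  have hKc : K.card ≤ 2 := (Finset.card_le_card hKA).trans hA
  have hKcR : (K.card : ℝ) ≤ 2 := by exact_mod_cast hKc
  have h3 := f_nonneg G A (1 + 1)
  by_cases h : ∃ a ∈ A, ∃ b ∈ A, G.Adj a b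
  · obtain ⟨a, ha, b, hb, hab⟩ := h
    rw [f_one_edge G ha hb hab]
    push_cast
    apply mul_nonneg (mul_nonneg h3 (by linarith))
    apply pow_nonneg
    norm_num
  · push Not at h
    have hK1 : K.card = 1 := by
      have h4 : K.card ≤ 1 := by
        rw [Finset.card_le_one]
        intro a ha b hb
        by_contra hab
        exact h a (hKA ha) b (hKA hb) (hK a ha b hb hab)
      have := Finset.card_pos.2 hKne
      omega
    have h5 := f_edgeless_ge G (1 + 1) A h
    have h6 := f_one_le G A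
    rw [hK1]
    obtain ⟨p, hp⟩ : ∃ p, A.card = p + 1 := by
      have : 0 < A.card := Finset.card_pos.2 (hKne.mono hKA)
      exact ⟨A.card - 1, by omega⟩
    rw [hp] at h5 ⊢
    rw [Nat.add_sub_cancel]
    refine h6.trans ?_
    have h7 : (1 : ℝ) = ((1 + 1 : ℕ) : ℝ) ^ (p + 1) * (1 - ((1 : ℕ) : ℝ) / (((1 : ℕ) : ℝ) + 1))
        * (1 - 1 / (((1 : ℕ) : ℝ) + 1)) ^ p := by
      have : (((1 + 1 : ℕ) : ℝ) ^ p) * (1 - 1 / (((1 : ℕ) : ℝ) + 1)) ^ p = 1 := by
        rw [← mul_pow]; norm_num
      rw [pow_succ]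
      push_cast at this ⊢
      linear_combination (-1 : ℝ) * this
    refine (le_of_eq h7).trans ?_
    apply mul_le_mul_of_nonneg_right _ (by apply pow_nonneg; norm_num)
    apply mul_le_mul_of_nonneg_right h5
    norm_num

omit [Fintype V] in
lemma aux1 (l k F S : ℝ) (hl : l ≠ 0) : l * (k * (F / l) + S) = k * F + l * S := by
  field_simp

omit [Fintype V] in
lemma aux2 (l k F W : ℝ) (hl : l ≠ 0) : l * (k * (F / l * W)) = k * F * W := by
  field_simp

lemma P_succ (n : ℕ) (hn : 1 ≤ n) (ih : P G n) : P G (n + 1) := by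
  apply P_of_nonempty
  intro A K hKA hK hA hKne
  obtain ⟨B, hB⟩ : ∃ B, B = A \ K := ⟨_, rfl⟩
  have hd : Disjoint K B := by rw [hB]; exact Finset.disjoint_sdiff
  have hAeq : A = K ∪ B := by rw [hB, Finset.union_sdiff_of_subset hKA]
  have hcard : A.card = K.card + B.card := by rw [hAeq, Finset.card_union_of_disjoint hd]
  have hnR : (1 : ℝ) ≤ n := by exact_mod_cast hn
  have hKc : 1 ≤ K.card := Finset.card_pos.2 hKne
  have hKcR : (1 : ℝ) ≤ K.card := by exact_mod_cast hKc
  have hmR : (B.card : ℝ) + K.card ≤ n + 2 := by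
    have : B.card + K.card ≤ n + 2 := by omega
    exact_mod_cast this
  set s : ℝ := 1 / (n : ℝ) with hs
  have hs0 : 0 < s := by positivity
  set β : ℝ := 1 - 1 / ((n : ℝ) + 1) with hβ
  have hβs : β * (1 + s) = 1 := by
    rw [hβ, hs]; field_simp; ring
  have hβ0 : 0 < β := by
    rw [hβ, sub_pos, div_lt_one (by positivity)]; linarith
  set M0 : ℝ := (n : ℝ) + 2 - K.card with hM0
  have hM00 : 0 ≤ M0 := by
    have : (0 : ℝ) ≤ B.card := Nat.cast_nonneg _
    rw [hM0]; linarith
  -- step for each x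
  have hx : ∀ x ∈ K, f G A (n + 1) ≤ M0 * β ^ B.card
      * (f G A (n + 2) / ((n : ℝ) + 2) + Z G K B x n) := by
    intro x hx
    have hd' : Disjoint (K.erase x) B := Finset.disjoint_of_subset_left (Finset.erase_subset _ _) hd
    have hcardE : (K.erase x).card = K.card - 1 := Finset.card_erase_of_mem hx
    have hcardER : ((K.erase x).card : ℝ) = (K.card : ℝ) - 1 := by
      rw [hcardE, Nat.cast_sub hKc]; simp
    have h1 : f G A (n + 1)
        = ((n : ℝ) + 1) * ∑ T ∈ (J G B).filter (fun T => av G x T), f G ((K.erase x ∪ B) \ T) n := by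
      rw [f_succ' G (hKA hx), hAeq, sum_Jx_clique G hd hK hx]
      congr 1
      apply Finset.sum_congr rfl
      intro T hT
      rw [mem_filter, mem_J] at hT
      rw [sdiff_insert_clique hd hx hT.1.1]
    have h2 : f G A (n + 2) = ((n : ℝ) + 2)
        * ∑ T ∈ (J G B).filter (fun T => av G x T), f G ((K.erase x ∪ B) \ T) (n + 1) := by
      rw [f_succ' G (hKA hx), hAeq, sum_Jx_clique G hd hK hx]
      push_cast
      rw [show (n : ℝ) + 1 + 1 = n + 2 by ring]
      congr 1
      apply Finset.sum_congr rfl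
      intro T hT
      rw [mem_filter, mem_J] at hT
      rw [sdiff_insert_clique hd hx hT.1.1]
    have h3 : ∀ T ∈ (J G B).filter (fun T => av G x T), ((n : ℝ) + 1) * f G ((K.erase x ∪ B) \ T) n
        ≤ M0 * β ^ B.card * ((1 + s) ^ T.card * f G ((K.erase x ∪ B) \ T) (n + 1)) := by
      intro T hT
      rw [mem_filter, mem_J] at hT
      obtain ⟨⟨hTB, hTi⟩, hTav⟩ := hT
      have hTc : T.card ≤ B.card := Finset.card_le_card hTB
      have hcT : ((K.erase x ∪ B) \ T).card = (K.card - 1) + (B.card - T.card) := by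
        rw [union_sdiff_right hd' hTB, Finset.card_union_of_disjoint
          (Finset.disjoint_of_subset_right Finset.sdiff_subset hd'), hcardE,
          Finset.card_sdiff_of_subset hTB]
      have h4 := ih ((K.erase x ∪ B) \ T) (K.erase x) (by
          rw [union_sdiff_right hd' hTB]; exact subset_union_left)
        (clq_erase G hK x) (by rw [hcT]; omega)
      rw [hcT, hcardE] at h4
      have e1 : (K.card - 1) + (B.card - T.card) - (K.card - 1) = B.card - T.card := by omega
      rw [e1, Nat.cast_sub hKc] at h4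
      push_cast at h4
      have e2 : β ^ B.card * (1 + s) ^ T.card = β ^ (B.card - T.card) := by
        have : β ^ B.card = β ^ (B.card - T.card) * β ^ T.card := by
          rw [← pow_add]; congr 1; omega
        rw [this, mul_assoc, ← mul_pow, hβs, one_pow, mul_one]
      have e3 : ((n : ℝ) + 1) * (1 - ((K.card : ℝ) - 1) / ((n : ℝ) + 1)) = M0 := by
        rw [hM0]; field_simp; ring
      calc ((n : ℝ) + 1) * f G ((K.erase x ∪ B) \ T) n
          ≤ ((n : ℝ) + 1) * (f G ((K.erase x ∪ B) \ T) (n + 1)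
            * (1 - ((K.card : ℝ) - 1) / ((n : ℝ) + 1)) * β ^ (B.card - T.card)) :=
            mul_le_mul_of_nonneg_left h4 (by positivity)
        _ = (((n : ℝ) + 1) * (1 - ((K.card : ℝ) - 1) / ((n : ℝ) + 1)))
            * β ^ (B.card - T.card) * f G ((K.erase x ∪ B) \ T) (n + 1) := by ring
        _ = M0 * β ^ B.card * ((1 + s) ^ T.card * f G ((K.erase x ∪ B) \ T) (n + 1)) := by
            rw [e3, ← e2]; ring
    rw [h1, mul_sum]
    refine (Finset.sum_le_sum h3).trans (le_of_eq ?_)
    rw [← mul_sum]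
    congr 1
    rw [h2, mul_div_cancel_left₀ _ (show (n : ℝ) + 2 ≠ 0 by positivity)]
    unfold Z
    rw [← Finset.sum_add_distrib]
    apply Finset.sum_congr rfl
    intro T _
    rw [← hs]
    ring
  have hsum := Finset.sum_le_sum hx
  rw [sum_const, nsmul_eq_mul, ← mul_sum, sum_add_distrib, sum_const, nsmul_eq_mul] at hsum
  have hbig := bigM G hd hK hKne n hn (by omega)
  rw [← hAeq, ← hs] at hbig
  set Sz := ∑ x ∈ K, Z G K B x n with hSz
  set FA := f G A (n + 2) with hFA
  clear_value FA Sz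
  have h5 : (K.card : ℝ) * (FA / ((n : ℝ) + 2)) + Sz
      ≤ K.card * (FA / ((n : ℝ) + 2) * (1 + s / ((n : ℝ) + 2)) ^ B.card) := by
    have hlam0 : (0 : ℝ) < (n : ℝ) + 2 := by positivity
    apply le_of_mul_le_mul_left _ hlam0
    have e1 : ((n : ℝ) + 2) * ((K.card : ℝ) * (FA / ((n : ℝ) + 2)) + Sz)
        = K.card * FA + ((n : ℝ) + 2) * Sz := aux1 _ _ _ _ hlam0.ne'
    have e2 : ((n : ℝ) + 2) * (K.card * (FA / ((n : ℝ) + 2) * (1 + s / ((n : ℝ) + 2)) ^ B.card))
        = K.card * FA * (1 + s / ((n : ℝ) + 2)) ^ B.card := aux2 _ _ _ _ hlam0.ne'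
    rw [e1, e2]
    linarith
  have h6 := hsum.trans (mul_le_mul_of_nonneg_left h5
    (mul_nonneg hM00 (pow_nonneg hβ0.le B.card)))
  have e3 : A.card - K.card = B.card := by omega
  rw [e3]
  have e4 : β * (1 + s / ((n : ℝ) + 2)) = 1 - 1 / ((n : ℝ) + 1 + 1) := by
    rw [hβ, hs]; field_simp; ring
  have hK0 : (0 : ℝ) < K.card := by linarith
  apply le_of_mul_le_mul_left _ hK0
  refine h6.trans (le_of_eq ?_)
  push_cast
  rw [← e4, mul_pow]
  have e5 : 1 - (K.card : ℝ) / ((n : ℝ) + 1 + 1) = M0 / ((n : ℝ) + 2) := by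
    rw [hM0]; field_simp; ring
  rw [e5, hFA]
  ring

theorem main (n : ℕ) : P G n := by
  induction n with
  | zero => exact P_zero G
  | succ n ih =>
    rcases Nat.eq_zero_or_pos n with rfl | hn
    · exact P_one G
    · exact P_succ G n hn ih

end

end Pool.Agent.R54.CR
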